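import Mathlib

set_option autoImplicit false

namespace Pool.Agent.H81S

open Polynomial

/-- The naive height of an integer polynomial: the largest absolute value of a coefficient. -/
noncomputable def ht (P : ℤ[X]) : ℕ := P.support.sup (fun i => (P.coeff i).natAbs)

theorem coeff_le_ht (P : ℤ[X]) (i : ℕ) : (P.coeff i).natAbs ≤ ht P := by
  by_cases h : P.coeff i = 0
  · simp [h]
  · exact Finset.le_sup (f := fun i => (P.coeff i).natAbs) (mem_support_iff.2 h)

theorem ht_le_iff (P : ℤ[X]) (M : ℕ) : ht P ≤ M ↔ ∀ i, (P.coeff i).natAbs ≤ M := by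
  constructor
  · intro h i
    exact (coeff_le_ht P i).trans h
  · intro h
    exact Finset.sup_le (fun i _ => h i)

theorem abs_coeff_le (P : ℤ[X]) (i : ℕ) : |(P.coeff i : ℝ)| ≤ (ht P : ℝ) := by
  have h := coeff_le_ht P i
  have h2 : |(P.coeff i : ℝ)| = (((P.coeff i).natAbs : ℕ) : ℝ) := by
    rw [Nat.cast_natAbs]; simp
  rw [h2]
  exact_mod_cast h

theorem ht_le_of_real (P : ℤ[X]) (B : ℝ) (hB : ∀ i, |(P.coeff i : ℝ)| ≤ B) : (ht P : ℝ) ≤ B := by
  have hB0 : 0 ≤ B := (abs_nonneg _).trans (hB 0)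
  have h : ht P ≤ ⌊B⌋₊ := by
    rw [ht_le_iff]
    intro i
    apply Nat.le_floor
    have h2 : |(P.coeff i : ℝ)| = (((P.coeff i).natAbs : ℕ) : ℝ) := by
      rw [Nat.cast_natAbs]; simp
    rw [← h2]
    exact hB i
  calc (ht P : ℝ) ≤ (⌊B⌋₊ : ℝ) := by exact_mod_cast h
    _ ≤ B := Nat.floor_le hB0

theorem ht_pos {P : ℤ[X]} (hP : P ≠ 0) : 1 ≤ ht P := by
  obtain ⟨i, hi⟩ : ∃ i, P.coeff i ≠ 0 := by
    by_contra h
    push Not at h
    exact hP (by ext i; simpa using h i)
  calc 1 ≤ (P.coeff i).natAbs := Int.natAbs_pos.2 hi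
    _ ≤ ht P := coeff_le_ht P i

theorem ht_pos_real {P : ℤ[X]} (hP : P ≠ 0) : (1 : ℝ) ≤ (ht P : ℝ) := by
  exact_mod_cast ht_pos hP

@[simp] theorem ht_zero : ht 0 = 0 := by simp [ht]

/-- finitely many integer polynomials of bounded degree and height -/
theorem finite_ht (n : ℕ) (B : ℝ) : {P : ℤ[X] | P.natDegree ≤ n ∧ (ht P : ℝ) ≤ B}.Finite := by
  classical
  let M : ℕ := ⌊B⌋₊
  let F : (Fin (n + 1) → Set.Icc (-(M : ℤ)) M) → ℤ[X] :=
    fun c => ∑ i : Fin (n + 1), C (c i : ℤ) * X ^ (i : ℕ)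
  apply (Set.finite_range F).subset
  rintro P ⟨hd, hP⟩
  have hM : ht P ≤ M := Nat.le_floor hP
  refine ⟨fun i => ⟨P.coeff i, ?_⟩, ?_⟩
  · have h := (coeff_le_ht P i).trans hM
    rw [Set.mem_Icc]
    constructor
    · omega
    · omega
  · simp only [F]
    rw [Fin.sum_univ_eq_sum_range (fun i => C (P.coeff i) * X ^ i) (n + 1)]
    conv_rhs => rw [P.as_sum_range' (n + 1) (by omega)]
    exact Finset.sum_congr rfl (fun i _ => C_mul_X_pow_eq_monomial)

/-- coefficientwise bound for the value of a real polynomial. -/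
theorem eval_bound (g : ℝ[X]) (n : ℕ) (hn : g.natDegree ≤ n) (B : ℝ) (hB : ∀ i, |g.coeff i| ≤ B)
    (x : ℝ) : |g.eval x| ≤ B * ((n + 1) * (1 + |x|) ^ n) := by
  have hB0 : 0 ≤ B := (abs_nonneg _).trans (hB 0)
  rw [eval_eq_sum_range' (show g.natDegree < n + 1 by omega)]
  calc |∑ i ∈ Finset.range (n + 1), g.coeff i * x ^ i|
      ≤ ∑ i ∈ Finset.range (n + 1), |g.coeff i * x ^ i| := Finset.abs_sum_le_sum_abs _ _
    _ ≤ ∑ i ∈ Finset.range (n + 1), B * (1 + |x|) ^ n := by
        apply Finset.sum_le_sum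
        intro i hi
        rw [abs_mul, abs_pow]
        have h1 : |x| ^ i ≤ (1 + |x|) ^ n := by
          calc |x| ^ i ≤ (1 + |x|) ^ i := by
                apply pow_le_pow_left₀ (abs_nonneg _); linarith [abs_nonneg x]
            _ ≤ (1 + |x|) ^ n := by
                apply pow_le_pow_right₀
                · linarith [abs_nonneg x]
                · have := Finset.mem_range.1 hi; omega
        exact mul_le_mul (hB i) h1 (by positivity) hB0
    _ = B * ((n + 1) * (1 + |x|) ^ n) := by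
        rw [Finset.sum_const, Finset.card_range]; simp; ring

theorem natDegree_derivative_le' (g : ℝ[X]) (n : ℕ) (hn : g.natDegree ≤ n) :
    g.derivative.natDegree ≤ n := by
  have := natDegree_derivative_le g
  omega

theorem coeff_derivative_bound (g : ℝ[X]) (n : ℕ) (hn : g.natDegree ≤ n) (B : ℝ)
    (hB : ∀ i, |g.coeff i| ≤ B) : ∀ i, |g.derivative.coeff i| ≤ n * B := by
  intro i
  have hB0 : 0 ≤ B := (abs_nonneg _).trans (hB 0)
  rw [coeff_derivative, abs_mul]
  by_cases hi : i + 1 ≤ n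
  · have h1 : |(i : ℝ) + 1| ≤ n := by
      rw [abs_of_nonneg (by positivity)]
      exact_mod_cast hi
    calc |g.coeff (i + 1)| * |(i : ℝ) + 1| ≤ B * n :=
          mul_le_mul (hB _) h1 (abs_nonneg _) hB0
      _ = n * B := by ring
  · have : g.coeff (i + 1) = 0 := coeff_eq_zero_of_natDegree_lt (by omega)
    rw [this]; simp; positivity

/-- the map to real polynomials -/
theorem aeval_eq_eval_map (P : ℤ[X]) (x : ℝ) :
    aeval x P = (P.map (Int.castRingHom ℝ)).eval x := by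
  rw [aeval_def, eval₂_eq_eval_map]; rfl

theorem aeval_bound (P : ℤ[X]) (n : ℕ) (hn : P.natDegree ≤ n) (x : ℝ) :
    |aeval x P| ≤ (ht P : ℝ) * ((n + 1) * (1 + |x|) ^ n) := by
  rw [aeval_eq_eval_map]
  apply eval_bound
  · exact natDegree_map_le.trans hn
  · intro i
    simpa using abs_coeff_le P i

/-- Existence of an irreducible factor vanishing at a given point. -/
theorem exists_irreducible_factor (Q : ℤ[X]) (hQ : Q ≠ 0) (α : ℝ) (h : aeval α Q = 0) :
    ∃ f : ℤ[X], Irreducible f ∧ f ∣ Q ∧ aeval α f = 0 := by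
  induction Q using WfDvdMonoid.induction_on_irreducible with
  | zero => exact absurd rfl hQ
  | unit u hu =>
    exfalso
    obtain ⟨v, hv⟩ := hu.exists_right_inv
    have := congrArg (aeval α) hv
    rw [map_mul, h, zero_mul, map_one] at this
    exact zero_ne_one this
  | mul a i ha hi ih =>
    rw [map_mul] at h
    rcases mul_eq_zero.1 h with h1 | h1
    · exact ⟨i, hi, dvd_mul_right _ _, h1⟩
    · obtain ⟨f, hf, hfd, hfa⟩ := ih ha h1
      exact ⟨f, hf, hfd.trans (dvd_mul_left _ _), hfa⟩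

/-- Mahler measure of an integer polynomial. -/
noncomputable def mm (P : ℤ[X]) : ℝ := (P.map (Int.castRingHom ℂ)).mahlerMeasure

theorem mm_mul (P Q : ℤ[X]) : mm (P * Q) = mm P * mm Q := by
  unfold mm
  rw [Polynomial.map_mul, mahlerMeasure_mul]

theorem mm_nonneg (P : ℤ[X]) : 0 ≤ mm P := mahlerMeasure_nonneg _

theorem map_ne_zero' {P : ℤ[X]} (hP : P ≠ 0) : P.map (Int.castRingHom ℂ) ≠ 0 := by
  rwa [Ne, Polynomial.map_eq_zero_iff (RingHom.injective_int _)]

theorem one_le_mm {P : ℤ[X]} (hP : P ≠ 0) : 1 ≤ mm P := by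
  have h1 := leadingCoeff_le_mahlerMeasure (P.map (Int.castRingHom ℂ))
  refine le_trans ?_ h1
  rw [leadingCoeff_map_of_injective (RingHom.injective_int _)]
  have h2 : P.leadingCoeff ≠ 0 := leadingCoeff_ne_zero.2 hP
  simp only [eq_intCast, Complex.norm_intCast]
  exact_mod_cast Int.one_le_abs h2

theorem supNorm_map (P : ℤ[X]) : (P.map (Int.castRingHom ℂ)).supNorm = (ht P : ℝ) := by
  apply le_antisymm
  · obtain ⟨i, hi⟩ := exists_eq_supNorm (P.map (Int.castRingHom ℂ))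
    rw [hi, coeff_map]
    simp only [eq_intCast, Complex.norm_intCast]
    exact abs_coeff_le P i
  · apply ht_le_of_real
    intro i
    have := le_supNorm (P.map (Int.castRingHom ℂ)) i
    rw [coeff_map] at this
    simpa only [eq_intCast, Complex.norm_intCast] using this

theorem ht_le_mm (P : ℤ[X]) (n : ℕ) (hn : P.natDegree ≤ n) : (ht P : ℝ) ≤ 2 ^ n * mm P := by
  have h := supNorm_le_choose_natDegree_div_two_mul_mahlerMeasure (P.map (Int.castRingHom ℂ))
  rw [supNorm_map] at h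
  refine h.trans ?_
  apply mul_le_mul_of_nonneg_right _ (mm_nonneg P)
  have h1 : (P.map (Int.castRingHom ℂ)).natDegree ≤ n := natDegree_map_le.trans hn
  calc (((P.map (Int.castRingHom ℂ)).natDegree.choose
          ((P.map (Int.castRingHom ℂ)).natDegree / 2) : ℕ) : ℝ)
      ≤ ((2 ^ (P.map (Int.castRingHom ℂ)).natDegree : ℕ) : ℝ) := by
        exact_mod_cast Nat.choose_le_two_pow _ _
    _ = (2 : ℝ) ^ (P.map (Int.castRingHom ℂ)).natDegree := by push_cast; ring
    _ ≤ 2 ^ n := pow_le_pow_right₀ (by norm_num) h1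

theorem mm_le_ht (P : ℤ[X]) (n : ℕ) (hn : P.natDegree ≤ n) : mm P ≤ (n + 1) * (ht P : ℝ) := by
  have h := mahlerMeasure_le_sqrt_natDegree_add_one_mul_supNorm (P.map (Int.castRingHom ℂ))
  rw [supNorm_map] at h
  refine h.trans ?_
  apply mul_le_mul_of_nonneg_right _ (Nat.cast_nonneg _)
  have h1 : (P.map (Int.castRingHom ℂ)).natDegree ≤ n := natDegree_map_le.trans hn
  have h2 : ((P.map (Int.castRingHom ℂ)).natDegree : ℝ) ≤ n := by exact_mod_cast h1
  rw [Real.sqrt_le_left (by positivity)]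
  nlinarith [Nat.cast_nonneg (α := ℝ) n]

/-- Gelfond type inequality. -/
theorem gelfond (P Q : ℤ[X]) (m : ℕ) (hP : P.natDegree ≤ m) (hQ : Q.natDegree ≤ m)
    (hPQ : (P * Q).natDegree ≤ m) :
    (ht P : ℝ) * ht Q ≤ (4 ^ m * (m + 1)) * ht (P * Q) := by
  have h1 := ht_le_mm P m hP
  have h2 := ht_le_mm Q m hQ
  have h3 := mm_le_ht (P * Q) m hPQ
  rw [mm_mul] at h3
  calc (ht P : ℝ) * ht Q ≤ (2 ^ m * mm P) * (2 ^ m * mm Q) :=
        mul_le_mul h1 h2 (Nat.cast_nonneg _) (mul_nonneg (by positivity) (mm_nonneg _))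
    _ = 4 ^ m * (mm P * mm Q) := by
        rw [show (4 : ℝ) = 2 * 2 by norm_num, mul_pow]; ring
    _ ≤ 4 ^ m * ((m + 1) * ht (P * Q)) := by
        apply mul_le_mul_of_nonneg_left h3; positivity
    _ = (4 ^ m * (m + 1)) * ht (P * Q) := by ring

theorem ht_factor_le (f Q : ℤ[X]) (n : ℕ) (hQ : Q ≠ 0) (hn : Q.natDegree ≤ n) (hf : f ∣ Q) :
    (ht f : ℝ) ≤ (4 ^ n * (n + 1)) * ht Q := by
  obtain ⟨g, rfl⟩ := hf
  have hf0 : f ≠ 0 := left_ne_zero_of_mul hQ
  have hg0 : g ≠ 0 := right_ne_zero_of_mul hQ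
  have hd := natDegree_mul hf0 hg0
  have h := gelfond f g n (by omega) (by omega) hn
  have hg1 := ht_pos_real hg0
  calc (ht f : ℝ) = ht f * 1 := by ring
    _ ≤ ht f * ht g := by apply mul_le_mul_of_nonneg_left hg1; positivity
    _ ≤ _ := h

end Pool.Agent.H81S
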