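import Pool.Agent.H81S.Main

set_option autoImplicit false

namespace Pool.Agent.H81S

open Polynomial

section packing

open Metric MeasureTheory Module ENNReal

variable {E : Type*} [NormedAddCommGroup E] [NormedSpace ℝ E] [FiniteDimensional ℝ E]

open scoped Function in
theorem packing (s : Finset E) (R ρ : ℝ) (hρ : 0 < ρ) (hR : 0 ≤ R) (hs : ∀ c ∈ s, ‖c‖ ≤ R)
    (h : ∀ c ∈ s, ∀ d ∈ s, c ≠ d → ρ ≤ ‖c - d‖) :
    (s.card : ℝ) ≤ (2 * R / ρ + 1) ^ finrank ℝ E := by
  borelize E
  let μ : Measure E := Measure.addHaar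
  let δ : ℝ := ρ / 2
  let τ : ℝ := R + ρ / 2
  have δpos : 0 < δ := by positivity
  have τpos : 0 < τ := by positivity
  set A := ⋃ c ∈ s, ball (c : E) δ with hA
  have D : Set.Pairwise (s : Set E) (Disjoint on fun c => ball (c : E) δ) := by
    rintro c hc d hd hcd
    apply ball_disjoint_ball
    rw [dist_eq_norm]
    have := h c hc d hd hcd
    show ρ / 2 + ρ / 2 ≤ _
    linarith
  have A_subset : A ⊆ ball (0 : E) τ := by
    refine Set.iUnion₂_subset fun x hx => ?_
    apply ball_subset_ball'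
    rw [dist_zero_right]
    have := hs x hx
    show ρ / 2 + ‖x‖ ≤ R + ρ / 2
    linarith
  have I :
    (s.card : ℝ≥0∞) * ENNReal.ofReal (δ ^ finrank ℝ E) * μ (ball 0 1) ≤
      ENNReal.ofReal (τ ^ finrank ℝ E) * μ (ball 0 1) :=
    calc
      (s.card : ℝ≥0∞) * ENNReal.ofReal (δ ^ finrank ℝ E) * μ (ball 0 1) = μ A := by
        rw [hA, measure_biUnion_finset D fun c _ => measurableSet_ball]
        simp only [μ.addHaar_ball_of_pos _ δpos]
        simp only [Finset.sum_const, nsmul_eq_mul, mul_assoc]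
      _ ≤ μ (ball (0 : E) τ) := measure_mono A_subset
      _ = ENNReal.ofReal (τ ^ finrank ℝ E) * μ (ball 0 1) := by
        simp only [μ.addHaar_ball_of_pos _ τpos]
  have J : (s.card : ℝ≥0∞) * ENNReal.ofReal (δ ^ finrank ℝ E) ≤
      ENNReal.ofReal (τ ^ finrank ℝ E) :=
    (ENNReal.mul_le_mul_iff_left (measure_ball_pos _ _ zero_lt_one).ne' measure_ball_lt_top.ne).1 I
  have K : (s.card : ℝ) * δ ^ finrank ℝ E ≤ τ ^ finrank ℝ E := by
    have h1 := ENNReal.toReal_mono ENNReal.ofReal_ne_top J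
    rw [ENNReal.toReal_mul, ENNReal.toReal_ofReal (by positivity),
      ENNReal.toReal_ofReal (by positivity), ENNReal.toReal_natCast] at h1
    exact h1
  have hδp : 0 < δ ^ finrank ℝ E := by positivity
  have h2 : (2 * R / ρ + 1) ^ finrank ℝ E = τ ^ finrank ℝ E / δ ^ finrank ℝ E := by
    rw [← div_pow]
    congr 1
    show 2 * R / ρ + 1 = (R + ρ / 2) / (ρ / 2)
    field_simp
  rw [h2, le_div_iff₀ hδp]
  exact K

end packing

/-- polynomial with prescribed coefficients -/
noncomputable def poly {m N : ℕ} (c : Fin (m + 1) → Fin (N + 1)) : ℤ[X] :=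
  ∑ i : Fin (m + 1), C ((c i : ℕ) : ℤ) * X ^ (i : ℕ)

theorem coeff_poly {m N : ℕ} (c : Fin (m + 1) → Fin (N + 1)) (j : Fin (m + 1)) :
    (poly c).coeff j = ((c j : ℕ) : ℤ) := by
  unfold poly
  rw [finsetSum_coeff, Finset.sum_eq_single j]
  · simp
  · intro b _ hb
    rw [coeff_C_mul, coeff_X_pow, if_neg]
    · simp
    · intro h; exact hb (Fin.ext h.symm)
  · simp

theorem coeff_poly_ge {m N : ℕ} (c : Fin (m + 1) → Fin (N + 1)) (j : ℕ) (hj : m < j) :
    (poly c).coeff j = 0 := by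
  unfold poly
  rw [finsetSum_coeff]
  apply Finset.sum_eq_zero
  intro i _
  rw [coeff_C_mul, coeff_X_pow, if_neg]
  · simp
  · have := i.2; omega

theorem natDegree_poly {m N : ℕ} (c : Fin (m + 1) → Fin (N + 1)) : (poly c).natDegree ≤ m := by
  rw [natDegree_le_iff_coeff_eq_zero]
  exact fun j hj => coeff_poly_ge c j hj

theorem ht_poly {m N : ℕ} (c : Fin (m + 1) → Fin (N + 1)) : ht (poly c) ≤ N := by
  rw [ht_le_iff]
  intro j
  by_cases hj : j ≤ m
  · have := coeff_poly c ⟨j, by omega⟩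
    simp only at this
    rw [this]
    have h2 := (c ⟨j, by omega⟩).2
    simp
    omega
  · rw [coeff_poly_ge c j (by omega)]; simp

theorem ht_poly_sub {m N : ℕ} (c d : Fin (m + 1) → Fin (N + 1)) : ht (poly c - poly d) ≤ N := by
  rw [ht_le_iff]
  intro j
  rw [coeff_sub]
  by_cases hj : j ≤ m
  · have h1 := coeff_poly c ⟨j, by omega⟩
    have h2 := coeff_poly d ⟨j, by omega⟩
    simp only at h1 h2
    rw [h1, h2]
    have h3 := (c ⟨j, by omega⟩).2
    have h4 := (d ⟨j, by omega⟩).2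
    omega
  · rw [coeff_poly_ge c j (by omega), coeff_poly_ge d j (by omega)]; simp

theorem poly_injective {m N : ℕ} : Function.Injective (poly (m := m) (N := N)) := by
  intro c d h
  funext j
  have h1 := coeff_poly c j
  rw [h, coeff_poly d j] at h1
  apply Fin.ext
  exact_mod_cast h1.symm

/-- coefficient vector -/
noncomputable def vec (m : ℕ) (P : ℤ[X]) : Fin (m + 1) → ℝ := fun j => (P.coeff j : ℝ)

theorem count (ξ : ℝ) (m r : ℕ) (B Bs w' v : ℝ) (hBs : 1 ≤ Bs) (hBB : Bs ≤ B)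
    (hv : v = B ^ (-w')) (hv0 : 0 < v) (hv1 : v ≤ 1)
    (hno : ∀ P : ℤ[X], P ≠ 0 → P.natDegree ≤ m → |aeval ξ P| ≤ v → Bs < ht P)
    (hr : Module.finrank ℚ (spanQ (G ξ m B w')) ≤ r) :
    B ^ (m + 1) ≤ (2 * ((m + 1) * (1 + |ξ|) ^ m) + 2) * (B / v) * (3 * B / Bs) ^ r := by
  classical
  have hB : 1 ≤ B := hBs.trans hBB
  have hB0 : 0 < B := by linarith
  have hBs0 : 0 < Bs := by linarith
  set N : ℕ := ⌊B⌋₊ with hN
  have hNB : (N : ℝ) ≤ B := Nat.floor_le hB0.le
  have hBN : B ≤ (N : ℝ) + 1 := (Nat.lt_floor_add_one B).le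
  set K : ℝ := (m + 1) * (1 + |ξ|) ^ m with hK
  have hK0 : 0 ≤ K := by positivity
  set Z : ℝ := K * B / v with hZ
  have hZ0 : 0 ≤ Z := by positivity
  let idx : (Fin (m + 1) → Fin (N + 1)) → ℤ := fun c => ⌊aeval ξ (poly c) / v⌋
  -- ambient space
  obtain ⟨r₀, P, hr₀, hPS, hPs⟩ := exists_family (G ξ m B w') m (fun P hP => hP.1)
  set E : Submodule ℝ (Fin (m + 1) → ℝ) :=
    Submodule.span ℝ (Set.range (fun i : Fin r₀ => vec m (P i))) with hE
  have hEr : Module.finrank ℝ E ≤ r := by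
    have h1 : Module.finrank ℝ E ≤ r₀ := by
      have := finrank_range_le_card (R := ℝ) (fun i : Fin r₀ => vec m (P i))
      simpa [Set.finrank] using this
    omega
  have hmemE : ∀ Q ∈ G ξ m B w', vec m Q ∈ E := by
    intro Q hQ
    obtain ⟨c, hc⟩ := hPs _ (Submodule.subset_span ⟨Q, hQ, rfl⟩)
    have h1 : vec m Q = ∑ i, (c i : ℝ) • vec m (P i) := by
      funext j
      have h2 := congrArg (fun g : ℚ[X] => g.coeff (j : ℕ)) hc
      simp only [coeff_map, finsetSum_coeff, coeff_C_mul, eq_intCast] at h2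
      rw [Finset.sum_apply]
      simp only [Pi.smul_apply, smul_eq_mul, vec]
      have h3 := congrArg (fun q : ℚ => (q : ℝ)) h2
      push_cast at h3
      exact h3
    rw [h1]
    apply Submodule.sum_mem
    intro i _
    apply Submodule.smul_mem
    exact Submodule.subset_span ⟨i, rfl⟩
  -- differences within a fibre
  have hdiff : ∀ c d, idx c = idx d → poly c - poly d ∈ G ξ m B w' ∧
      |aeval ξ (poly c - poly d)| ≤ v := by
    intro c d hcd
    have h1 : |aeval ξ (poly c - poly d)| ≤ v := by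
      have h2 : |aeval ξ (poly c) / v - aeval ξ (poly d) / v| < 1 :=
        Int.abs_sub_lt_one_of_floor_eq_floor hcd
      rw [← sub_div, abs_div, abs_of_pos hv0, div_lt_one hv0] at h2
      rw [map_sub]
      exact h2.le
    refine ⟨⟨?_, ?_, ?_⟩, h1⟩
    · exact (natDegree_sub_le _ _).trans (max_le (natDegree_poly c) (natDegree_poly d))
    · calc ((ht (poly c - poly d) : ℕ) : ℝ) ≤ N := by exact_mod_cast ht_poly_sub c d
        _ ≤ B := hNB
    · rw [← hv]; exact h1
  -- fibre bound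
  have hfib : ∀ b : ℤ, (((Finset.univ.filter (fun c => idx c = b)).card : ℕ) : ℝ) ≤
      (3 * B / Bs) ^ r := by
    intro b
    set F := Finset.univ.filter (fun c : Fin (m + 1) → Fin (N + 1) => idx c = b) with hF
    have hbase : 1 ≤ 3 * B / Bs := by
      rw [le_div_iff₀ hBs0]; linarith
    rcases F.eq_empty_or_nonempty with hemp | ⟨c₀, hc₀⟩
    · rw [hemp]; simp; positivity
    have hFb : ∀ c ∈ F, idx c = b := fun c hc => (Finset.mem_filter.1 hc).2
    have hFm : ∀ c ∈ F, vec m (poly c - poly c₀) ∈ E := by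
      intro c hc
      exact hmemE _ (hdiff c c₀ (by rw [hFb c hc, hFb c₀ hc₀])).1
    let φ : (Fin (m + 1) → Fin (N + 1)) → E := fun c =>
      if h : vec m (poly c - poly c₀) ∈ E then ⟨_, h⟩ else 0
    have hφ : ∀ c ∈ F, ((φ c : E) : Fin (m + 1) → ℝ) = vec m (poly c - poly c₀) := by
      intro c hc
      simp only [φ, dif_pos (hFm c hc)]
    have hφsub : ∀ c ∈ F, ∀ d ∈ F, ((φ c - φ d : E) : Fin (m + 1) → ℝ) =
        vec m (poly c - poly d) := by
      intro c hc d hd
      rw [Submodule.coe_sub, hφ c hc, hφ d hd]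
      funext j
      simp only [Pi.sub_apply, vec, coeff_sub]
      push_cast
      ring
    have hinj : Set.InjOn φ (F : Set (Fin (m + 1) → Fin (N + 1))) := by
      intro c hc d hd hcd
      have h1 := hφsub c hc d hd
      rw [hcd, sub_self] at h1
      apply poly_injective
      ext j
      by_cases hj : j ≤ m
      · have h2 := congrFun h1 ⟨j, by omega⟩
        simp only [Submodule.coe_zero, Pi.zero_apply, vec, coeff_sub] at h2
        have h3 : (poly c).coeff j - (poly d).coeff j = 0 := by exact_mod_cast h2.symm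
        omega
      · rw [coeff_poly_ge c j (by omega), coeff_poly_ge d j (by omega)]
    have hcard : F.card = (F.image φ).card := (Finset.card_image_of_injOn hinj).symm
    have hpack := packing (F.image φ) B Bs hBs0 hB0.le (by
      intro u hu
      obtain ⟨c, hc, rfl⟩ := Finset.mem_image.1 hu
      rw [← Submodule.norm_coe, hφ c hc, pi_norm_le_iff_of_nonneg hB0.le]
      intro j
      rw [Real.norm_eq_abs]
      refine (abs_coeff_le _ _).trans ?_
      calc ((ht (poly c - poly c₀) : ℕ) : ℝ) ≤ N := by exact_mod_cast ht_poly_sub c c₀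
        _ ≤ B := hNB) (by
      intro u hu u' hu' huu
      obtain ⟨c, hc, rfl⟩ := Finset.mem_image.1 hu
      obtain ⟨d, hd, rfl⟩ := Finset.mem_image.1 hu'
      have hcd : c ≠ d := by rintro rfl; exact huu rfl
      have hne : poly c - poly d ≠ 0 := by
        rw [sub_ne_zero]; exact fun h => hcd (poly_injective h)
      obtain ⟨hG1, hG2⟩ := hdiff c d (by rw [hFb c hc, hFb d hd])
      have h1 := hno _ hne hG1.1 hG2
      rw [← Submodule.norm_coe, hφsub c hc d hd]
      refine h1.le.trans ?_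
      apply ht_le_of_real
      intro j
      by_cases hj : j ≤ m
      · have := norm_le_pi_norm (vec m (poly c - poly d)) ⟨j, by omega⟩
        simpa [vec, Real.norm_eq_abs] using this
      · rw [coeff_sub, coeff_poly_ge c j (by omega), coeff_poly_ge d j (by omega)]
        simp)
    rw [hcard]
    refine hpack.trans ?_
    have h5 : 2 * B / Bs + 1 ≤ 3 * B / Bs := by
      rw [div_add_one hBs0.ne', div_le_div_iff_of_pos_right hBs0]
      linarith
    calc (2 * B / Bs + 1) ^ Module.finrank ℝ E ≤ (3 * B / Bs) ^ Module.finrank ℝ E :=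
          pow_le_pow_left₀ (by positivity) h5 _
      _ ≤ (3 * B / Bs) ^ r := pow_le_pow_right₀ hbase hEr
  -- the number of boxes
  have hmaps : ∀ c ∈ (Finset.univ : Finset (Fin (m + 1) → Fin (N + 1))),
      idx c ∈ Finset.Icc ⌊-Z⌋ ⌊Z⌋ := by
    intro c _
    have h1 := aeval_bound (poly c) m (natDegree_poly c) ξ
    have h2 : (ht (poly c) : ℝ) ≤ B := by
      calc ((ht (poly c) : ℕ) : ℝ) ≤ N := by exact_mod_cast ht_poly c
        _ ≤ B := hNB
    have h3 : |aeval ξ (poly c)| ≤ K * B := by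
      calc _ ≤ (ht (poly c) : ℝ) * K := h1
        _ ≤ B * K := mul_le_mul_of_nonneg_right h2 hK0
        _ = K * B := mul_comm _ _
    have h4 : |aeval ξ (poly c) / v| ≤ Z := by
      rw [abs_div, abs_of_pos hv0, hZ]
      exact div_le_div_of_nonneg_right h3 hv0.le
    rw [Finset.mem_Icc]
    exact ⟨Int.floor_le_floor (abs_le.1 h4).1, Int.floor_le_floor (abs_le.1 h4).2⟩
  have hcardI : ((Finset.Icc ⌊-Z⌋ ⌊Z⌋).card : ℝ) ≤ (2 * K + 2) * (B / v) := by
    rw [Int.card_Icc]
    have h1 : ((⌊Z⌋ + 1 - ⌊-Z⌋).toNat : ℝ) = ((⌊Z⌋ + 1 - ⌊-Z⌋ : ℤ) : ℝ) := by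
      have h2 : 0 ≤ ⌊Z⌋ + 1 - ⌊-Z⌋ := by
        have := Int.floor_le_floor (show -Z ≤ Z by linarith)
        omega
      exact_mod_cast congrArg (fun z : ℤ => (z : ℝ)) (Int.toNat_of_nonneg h2)
    rw [h1]
    push_cast
    have h3 := Int.floor_le Z
    have h4 := Int.lt_floor_add_one (-Z)
    have h5 : 1 ≤ B / v := by
      rw [le_div_iff₀ hv0]; linarith
    have h6 : Z = K * (B / v) := by rw [hZ]; ring
    nlinarith
  have hmain := Finset.card_le_mul_card_image_of_maps_to hmaps ⌊(3 * B / Bs) ^ r⌋₊ (by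
    intro b _
    exact Nat.le_floor (hfib b))
  have hcardU : (Finset.univ : Finset (Fin (m + 1) → Fin (N + 1))).card = (N + 1) ^ (m + 1) := by
    rw [Finset.card_univ, Fintype.card_fun, Fintype.card_fin, Fintype.card_fin]
  rw [hcardU] at hmain
  have hmain' : ((N : ℝ) + 1) ^ (m + 1) ≤
      (⌊(3 * B / Bs) ^ r⌋₊ : ℝ) * ((Finset.Icc ⌊-Z⌋ ⌊Z⌋).card : ℝ) := by
    exact_mod_cast hmain
  calc B ^ (m + 1) ≤ ((N : ℝ) + 1) ^ (m + 1) := pow_le_pow_left₀ hB0.le hBN _
    _ ≤ (⌊(3 * B / Bs) ^ r⌋₊ : ℝ) * ((Finset.Icc ⌊-Z⌋ ⌊Z⌋).card : ℝ) := hmain'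
    _ ≤ (3 * B / Bs) ^ r * ((2 * K + 2) * (B / v)) := by
        apply mul_le_mul (Nat.floor_le (by positivity)) hcardI (by positivity) (by positivity)
    _ = _ := by ring

end Pool.Agent.H81S
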