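import Pool.Agent.H81S.Newton

set_option autoImplicit false

namespace Pool.Agent.H81S

open Polynomial

/-- good polynomials: degree at most `n`, height at most `B`, value at most `B^(-w)`. -/
def G (ξ : ℝ) (n : ℕ) (B w : ℝ) : Set ℤ[X] :=
  {P | P.natDegree ≤ n ∧ (ht P : ℝ) ≤ B ∧ |aeval ξ P| ≤ B ^ (-w)}

/-- the rational span of a set of integer polynomials -/
noncomputable def spanQ (S : Set ℤ[X]) : Submodule ℚ ℚ[X] :=
  Submodule.span ℚ ((fun P : ℤ[X] => P.map (Int.castRingHom ℚ)) '' S)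

theorem spanQ_le_degreeLT (S : Set ℤ[X]) (n : ℕ) (h : ∀ P ∈ S, P.natDegree ≤ n) :
    spanQ S ≤ degreeLT ℚ (n + 1) := by
  unfold spanQ
  rw [Submodule.span_le]
  rintro _ ⟨P, hP, rfl⟩
  rw [SetLike.mem_coe, mem_degreeLT]
  refine lt_of_le_of_lt degree_le_natDegree ?_
  have h1 : (P.map (Int.castRingHom ℚ)).natDegree ≤ n := natDegree_map_le.trans (h P hP)
  exact_mod_cast Nat.lt_succ_of_le h1

instance finite_degreeLT (n : ℕ) : Module.Finite ℚ (degreeLT ℚ n) :=
  Module.Finite.equiv (degreeLTEquiv ℚ n).symm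

theorem finrank_degreeLT (n : ℕ) : Module.finrank ℚ (degreeLT ℚ n) = n := by
  rw [(degreeLTEquiv ℚ n).finrank_eq, Module.finrank_fin_fun]

theorem finite_spanQ (S : Set ℤ[X]) (n : ℕ) (h : ∀ P ∈ S, P.natDegree ≤ n) :
    Module.Finite ℚ (spanQ S) :=
  Submodule.finiteDimensional_of_le (spanQ_le_degreeLT S n h)

theorem finrank_spanQ_le (S : Set ℤ[X]) (n : ℕ) (h : ∀ P ∈ S, P.natDegree ≤ n) :
    Module.finrank ℚ (spanQ S) ≤ n + 1 := by
  have h1 := Submodule.finrank_mono (spanQ_le_degreeLT S n h)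
  rwa [finrank_degreeLT] at h1

/-- A small spanning family of integer polynomials out of `S`. -/
theorem exists_family (S : Set ℤ[X]) (n : ℕ) (h : ∀ P ∈ S, P.natDegree ≤ n) :
    ∃ (r : ℕ) (P : Fin r → ℤ[X]), r = Module.finrank ℚ (spanQ S) ∧ (∀ i, P i ∈ S) ∧
      ∀ g ∈ spanQ S, ∃ c : Fin r → ℚ,
        g = ∑ i, C (c i) * (P i).map (Int.castRingHom ℚ) := by
  have hfin : Module.Finite ℚ (Submodule.span ℚ
      ((fun P : ℤ[X] => P.map (Int.castRingHom ℚ)) '' S)) := finite_spanQ S n h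
  obtain ⟨f, hf, hspan, -⟩ := Submodule.exists_fun_fin_finrank_span_eq ℚ
    ((fun P : ℤ[X] => P.map (Int.castRingHom ℚ)) '' S)
  choose P hP hPf using hf
  refine ⟨_, P, rfl, hP, ?_⟩
  intro g hg
  have hg' : g ∈ Submodule.span ℚ (Set.range f) := by rw [hspan]; exact hg
  rw [Submodule.mem_span_range_iff_exists_fun] at hg'
  obtain ⟨c, hc⟩ := hg'
  refine ⟨c, ?_⟩
  rw [← hc]
  apply Finset.sum_congr rfl
  intro i _
  rw [← hPf i, smul_eq_C_mul]

theorem map_comp_real (P : ℤ[X]) :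
    (P.map (Int.castRingHom ℚ)).map (algebraMap ℚ ℝ) = P.map (Int.castRingHom ℝ) := by
  rw [Polynomial.map_map]
  congr 1

theorem davenport_schmidt (ξ : ℝ) (hξ : Transcendental ℤ ξ) (n : ℕ) (hn : 1 ≤ n) (w w₁ : ℝ)
    (hw : 0 ≤ w) (hww : w < w₁)
    (h : ∀ X₀ : ℝ, ∃ B ≥ X₀, ∀ j ≤ n, (X ^ j : ℚ[X]) ∈ spanQ (G ξ n B w₁)) :
    (A ξ n w).Infinite := by
  obtain ⟨K, hK1, hK⟩ := approx_of_poly ξ hξ n
  apply infinite_of_close
  intro η hη
  set N : ℝ := n + 1 with hN
  have hN1 : 1 ≤ N := by rw [hN]; linarith [Nat.cast_nonneg (α := ℝ) n]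
  set L : ℝ := (n + 1) * (1 + |ξ|) ^ n with hL
  have hL0 : 0 ≤ L := by positivity
  set C₁ : ℝ := N * (n * L) + 1 with hC₁
  have hC₁1 : 1 ≤ C₁ := by
    rw [hC₁]
    have : 0 ≤ N * (n * L) := by positivity
    linarith
  set C₂ : ℝ := C₁ * (1 + |ξ|) + N with hC₂
  have hC₂1 : 1 ≤ C₂ := by
    rw [hC₂]
    have : 0 ≤ C₁ * (1 + |ξ|) := by positivity
    linarith
  have hKC : 1 ≤ K * C₂ := by nlinarith
  -- choose B large
  have ev1 : ∀ᶠ B : ℝ in Filter.atTop, 4 * N * B ^ (-(w₁ + 1)) < min (min 1 (1 / (K * C₂))) η := by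
    have h1 : Filter.Tendsto (fun B : ℝ => 4 * N * B ^ (-(w₁ + 1))) Filter.atTop (nhds 0) := by
      have := (tendsto_rpow_neg_atTop (show 0 < w₁ + 1 by linarith)).const_mul (4 * N)
      simpa using this
    apply h1.eventually_lt_const
    apply lt_min (lt_min one_pos (by positivity)) hη
  have ev2 : ∀ᶠ B : ℝ in Filter.atTop, 4 * N * (K * C₂) ^ (w + 1) ≤ B ^ (w₁ - w) := by
    exact (tendsto_rpow_atTop (show 0 < w₁ - w by linarith)).eventually_ge_atTop _
  have ev3 : ∀ᶠ B : ℝ in Filter.atTop, (1 : ℝ) ≤ B := Filter.eventually_ge_atTop 1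
  obtain ⟨X₀, hX₀⟩ := Filter.eventually_atTop.1 (ev1.and (ev2.and ev3))
  obtain ⟨B, hB, hfull⟩ := h X₀
  obtain ⟨hB1, hB2, hB3⟩ := hX₀ B hB
  have hB0 : 0 < B := by linarith
  -- family
  have hdeg : ∀ P ∈ G ξ n B w₁, P.natDegree ≤ n := fun P hP => hP.1
  obtain ⟨r, P, hr, hPG, hPs⟩ := exists_family (G ξ n B w₁) n hdeg
  have hrn : (r : ℝ) ≤ N := by
    rw [hN, hr]
    exact_mod_cast finrank_spanQ_le (G ξ n B w₁) n hdeg
  have hc : ∀ j : ℕ, ∃ c : Fin r → ℚ, j ≤ n → (X ^ j : ℚ[X]) =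
      ∑ i, C (c i) * (P i).map (Int.castRingHom ℚ) := by
    intro j
    by_cases hj : j ≤ n
    · obtain ⟨c, hc⟩ := hPs _ (hfull j hj)
      exact ⟨c, fun _ => hc⟩
    · exact ⟨0, fun h => absurd h hj⟩
  choose c hc using hc
  -- the real target
  set T : ℝ := C₁ * B with hT
  set R : ℝ[X] := C T * (X - C ξ) with hR
  set ρ : Fin r → ℝ := fun i => ∑ j ∈ Finset.range (n + 1), R.coeff j * ((c j i : ℚ) : ℝ) with hρ
  have hRd : R.natDegree ≤ n := by
    rw [hR]
    refine (natDegree_C_mul_le _ _).trans ?_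
    rw [natDegree_X_sub_C]; exact hn
  have hRsum : R = ∑ i, C (ρ i) * (P i).map (Int.castRingHom ℝ) := by
    conv_lhs => rw [R.as_sum_range' (n + 1) (by omega)]
    have h1 : ∀ j ∈ Finset.range (n + 1), monomial j (R.coeff j) =
        ∑ i, C (R.coeff j * ((c j i : ℚ) : ℝ)) * (P i).map (Int.castRingHom ℝ) := by
      intro j hj
      have hj' : j ≤ n := by have := Finset.mem_range.1 hj; omega
      have h2 := congrArg (fun g : ℚ[X] => g.map (algebraMap ℚ ℝ)) (hc j hj')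
      simp only [Polynomial.map_pow, Polynomial.map_X, Polynomial.map_sum, Polynomial.map_mul,
        Polynomial.map_C, map_comp_real] at h2
      rw [← C_mul_X_pow_eq_monomial, h2, Finset.mul_sum]
      apply Finset.sum_congr rfl
      intro i _
      rw [C_mul, mul_assoc]
      rfl
    rw [Finset.sum_congr rfl h1, Finset.sum_comm]
    apply Finset.sum_congr rfl
    intro i _
    rw [hρ]
    simp only
    rw [map_sum, Finset.sum_mul]
  set Q : ℤ[X] := ∑ i, C (round (ρ i)) * P i with hQ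
  set E : ℝ[X] := ∑ i, C ((round (ρ i) : ℝ) - ρ i) * (P i).map (Int.castRingHom ℝ) with hE
  have hQR : Q.map (Int.castRingHom ℝ) = R + E := by
    rw [hQ, hE, Polynomial.map_sum]
    conv_rhs => rw [hRsum]
    rw [← Finset.sum_add_distrib]
    apply Finset.sum_congr rfl
    intro i _
    rw [Polynomial.map_mul, Polynomial.map_C, ← add_mul, ← C_add]
    simp
  have hround : ∀ i, |(round (ρ i) : ℝ) - ρ i| ≤ 1 := by
    intro i
    rw [abs_sub_comm]
    exact (abs_sub_round (ρ i)).trans (by norm_num)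
  have hPc : ∀ i j, |((P i).map (Int.castRingHom ℝ)).coeff j| ≤ B := by
    intro i j
    rw [coeff_map]
    exact (abs_coeff_le (P i) j).trans (hPG i).2.1
  have hPd : ∀ i, ((P i).map (Int.castRingHom ℝ)).natDegree ≤ n :=
    fun i => natDegree_map_le.trans (hPG i).1
  have hEc : ∀ j, |E.coeff j| ≤ N * B := by
    intro j
    rw [hE, finsetSum_coeff]
    calc |∑ i, (C ((round (ρ i) : ℝ) - ρ i) * (P i).map (Int.castRingHom ℝ)).coeff j|
        ≤ ∑ i, |(C ((round (ρ i) : ℝ) - ρ i) * (P i).map (Int.castRingHom ℝ)).coeff j| :=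
          Finset.abs_sum_le_sum_abs _ _
      _ ≤ ∑ i : Fin r, B := by
          apply Finset.sum_le_sum
          intro i _
          rw [coeff_C_mul, abs_mul]
          calc _ ≤ 1 * B := mul_le_mul (hround i) (hPc i j) (abs_nonneg _) zero_le_one
            _ = B := one_mul B
      _ = r * B := by simp
      _ ≤ N * B := mul_le_mul_of_nonneg_right hrn hB0.le
  have hEξ : |E.eval ξ| ≤ N * B ^ (-w₁) := by
    rw [hE, eval_finsetSum]
    calc |∑ i, (C ((round (ρ i) : ℝ) - ρ i) * (P i).map (Int.castRingHom ℝ)).eval ξ|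
        ≤ ∑ i, |(C ((round (ρ i) : ℝ) - ρ i) * (P i).map (Int.castRingHom ℝ)).eval ξ| :=
          Finset.abs_sum_le_sum_abs _ _
      _ ≤ ∑ i : Fin r, B ^ (-w₁) := by
          apply Finset.sum_le_sum
          intro i _
          rw [eval_mul, eval_C, abs_mul, ← aeval_eq_eval_map]
          calc _ ≤ 1 * B ^ (-w₁) := mul_le_mul (hround i) (hPG i).2.2 (abs_nonneg _) zero_le_one
            _ = B ^ (-w₁) := one_mul _
      _ = r * B ^ (-w₁) := by simp
      _ ≤ N * B ^ (-w₁) := mul_le_mul_of_nonneg_right hrn (Real.rpow_nonneg hB0.le _)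
  have hE'ξ : |E.derivative.eval ξ| ≤ N * (n * L) * B := by
    rw [hE, derivative_sum, eval_finsetSum]
    calc |∑ i, (derivative (C ((round (ρ i) : ℝ) - ρ i) * (P i).map (Int.castRingHom ℝ))).eval ξ|
        ≤ ∑ i, |(derivative (C ((round (ρ i) : ℝ) - ρ i) *
            (P i).map (Int.castRingHom ℝ))).eval ξ| := Finset.abs_sum_le_sum_abs _ _
      _ ≤ ∑ i : Fin r, (n * L) * B := by
          apply Finset.sum_le_sum
          intro i _
          rw [derivative_C_mul, eval_mul, eval_C, abs_mul]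
          have h1 := eval_bound (derivative ((P i).map (Int.castRingHom ℝ))) n
            (natDegree_derivative_le' _ n (hPd i)) (n * B)
            (coeff_derivative_bound _ n (hPd i) B (hPc i)) ξ
          calc _ ≤ 1 * (n * B * ((n + 1) * (1 + |ξ|) ^ n)) :=
                mul_le_mul (hround i) h1 (abs_nonneg _) zero_le_one
            _ = (n * L) * B := by rw [hL]; ring
      _ = r * ((n * L) * B) := by simp
      _ ≤ N * ((n * L) * B) := mul_le_mul_of_nonneg_right hrn (by positivity)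
      _ = N * (n * L) * B := by ring
  -- properties of Q
  have hRξ : R.eval ξ = 0 := by simp [hR]
  have hR' : R.derivative = C T := by simp [hR]
  have hQξ : |aeval ξ Q| ≤ N * B ^ (-w₁) := by
    rw [aeval_eq_eval_map, hQR, eval_add, hRξ, zero_add]; exact hEξ
  have hQ'ξ : B ≤ |aeval ξ (derivative Q)| := by
    rw [aeval_eq_eval_map, ← derivative_map, hQR, derivative_add, eval_add, hR', eval_C]
    have h1 := (abs_le.1 hE'ξ).1
    have h2 : T = N * (n * L) * B + B := by rw [hT, hC₁]; ring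
    calc B ≤ T + E.derivative.eval ξ := by rw [h2]; linarith
      _ ≤ _ := le_abs_self _
  have hRc : ∀ j, |R.coeff j| ≤ T * (1 + |ξ|) := by
    intro j
    have hT0 : 0 ≤ T := by positivity
    rw [hR, coeff_C_mul, abs_mul, abs_of_nonneg hT0]
    apply mul_le_mul_of_nonneg_left _ hT0
    rw [coeff_sub, coeff_X, coeff_C]
    split_ifs with h1 h2 h2
    · omega
    · simp
    · simp
    · simp; positivity
  have hQht : (ht Q : ℝ) ≤ C₂ * B := by
    apply ht_le_of_real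
    intro j
    have h1 : ((Q.coeff j : ℤ) : ℝ) = (Q.map (Int.castRingHom ℝ)).coeff j := by
      rw [coeff_map]; rfl
    rw [h1, hQR, coeff_add]
    calc |R.coeff j + E.coeff j| ≤ |R.coeff j| + |E.coeff j| := abs_add_le _ _
      _ ≤ T * (1 + |ξ|) + N * B := add_le_add (hRc j) (hEc j)
      _ = C₂ * B := by rw [hC₂, hT]; ring
  have hQd : Q.natDegree ≤ n := by
    rw [hQ]
    apply natDegree_sum_le_of_forall_le
    intro i _
    exact (natDegree_C_mul_le _ _).trans (hPG i).1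
  have hQ0 : Q ≠ 0 := by
    rintro h0
    rw [h0] at hQ'ξ
    simp at hQ'ξ
    linarith
  set δ : ℝ := 4 * N * B ^ (-(w₁ + 1)) with hδ
  have hδ0 : 0 < δ := by positivity
  have hδ1 : δ ≤ 1 := hB1.le.trans ((min_le_left _ _).trans (min_le_left _ _))
  have hδ2 : δ ≤ 1 / (K * C₂) := hB1.le.trans ((min_le_left _ _).trans (min_le_right _ _))
  have hδ3 : δ < η := lt_of_lt_of_le hB1 (min_le_right _ _)
  have hδB : δ * B = 4 * N * B ^ (-w₁) := by
    rw [hδ, mul_assoc]
    congr 1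
    have h5 : B ^ (-w₁) = B ^ (-(w₁ + 1)) * B ^ (1 : ℝ) := by
      rw [← Real.rpow_add hB0]; congr 1; ring
    rw [h5, Real.rpow_one]
  obtain ⟨α, f, hf, hfd, hfα, hα0, hα, hfh⟩ := hK Q (C₂ * B) B (N * B ^ (-w₁)) δ hQ0 hQd hQht hQξ
    hQ'ξ hδ0 hδ1 (by
      have h1 : (K * C₂) * δ ≤ 1 := by
        rw [le_div_iff₀ (by positivity)] at hδ2
        linarith
      calc K * (C₂ * B) * δ = ((K * C₂) * δ) * B := by ring
        _ ≤ 1 * B := mul_le_mul_of_nonneg_right h1 hB0.le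
        _ = B := one_mul B) (by
      rw [hδB]
      have : 0 < N * B ^ (-w₁) := by positivity
      linarith)
  refine ⟨α, ⟨f, hf, hfd, hfα, hα0, ?_⟩, lt_of_le_of_lt hα hδ3⟩
  refine hα.trans ?_
  have hf1 : 1 ≤ (ht f : ℝ) := ht_pos_real hf.ne_zero
  have h1 : (K * (C₂ * B)) ^ (-w - 1) ≤ (ht f : ℝ) ^ (-w - 1) :=
    Real.rpow_le_rpow_of_nonpos (by linarith) hfh (by linarith)
  refine le_trans ?_ h1
  have h2 : (K * (C₂ * B)) ^ (-w - 1) = (K * C₂) ^ (-w - 1) * B ^ (-w - 1) := by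
    rw [← mul_assoc, Real.mul_rpow (by positivity) hB0.le]
  rw [h2, hδ]
  have h3 : B ^ (-w - 1) = B ^ (w₁ - w) * B ^ (-(w₁ + 1)) := by
    rw [← Real.rpow_add hB0]; congr 1; ring
  have h4 : (K * C₂) ^ (-w - 1) * (K * C₂) ^ (w + 1) = 1 := by
    rw [← Real.rpow_add (by positivity)]
    have : -w - 1 + (w + 1) = 0 := by ring
    rw [this, Real.rpow_zero]
  rw [h3]
  calc 4 * N * B ^ (-(w₁ + 1))
      = ((K * C₂) ^ (-w - 1) * (4 * N * (K * C₂) ^ (w + 1))) * B ^ (-(w₁ + 1)) := by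
        calc 4 * N * B ^ (-(w₁ + 1)) = 4 * N * 1 * B ^ (-(w₁ + 1)) := by ring
          _ = 4 * N * ((K * C₂) ^ (-w - 1) * (K * C₂) ^ (w + 1)) * B ^ (-(w₁ + 1)) := by rw [h4]
          _ = _ := by ring
    _ ≤ ((K * C₂) ^ (-w - 1) * B ^ (w₁ - w)) * B ^ (-(w₁ + 1)) := by
        apply mul_le_mul_of_nonneg_right _ (Real.rpow_nonneg hB0.le _)
        apply mul_le_mul_of_nonneg_left hB2 (Real.rpow_nonneg (by positivity) _)
    _ = (K * C₂) ^ (-w - 1) * (B ^ (w₁ - w) * B ^ (-(w₁ + 1))) := by ring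

end Pool.Agent.H81S
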