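import Pool.Agent.H81S.Lower

set_option autoImplicit false

namespace Pool.Agent.H81S

open Polynomial

/-- The pointwise inequality `w*_{m+k} ≥ k a / (a - m + k) - 2k - 1`. -/
theorem pointwise (ξ : ℝ) (hξ : Transcendental ℤ ξ) (m k : ℕ) (hk : 1 ≤ k) (hkm : k ≤ m)
    (w a : ℝ) (hw : 2 * (k : ℝ) ≤ w) (ha : (m : ℝ) ≤ a)
    (hwa : (w + 2 * k + 1) * (a - m + k) < k * a)
    (hs : ∀ X₀ : ℝ, ∃ Y ≥ X₀, ∀ P : ℤ[X], P ≠ 0 → P.natDegree ≤ m → (ht P : ℝ) ≤ Y →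
      Y ^ (-a) < |aeval ξ P|) :
    (A ξ (m + k) w).Infinite := by
  by_contra hfin
  have hk0 : (1 : ℝ) ≤ k := by exact_mod_cast hk
  have hm0 : (1 : ℝ) ≤ m := by exact_mod_cast hk.trans hkm
  set w₁ : ℝ := w + 2 * k + 1 with hw₁
  set b : ℝ := a - m + k with hb
  have hb0 : 0 < b := by rw [hb]; linarith
  have ha0 : 0 < a := by linarith
  have hw₁0 : 0 < w₁ := by rw [hw₁]; linarith
  have hw₁b : w₁ < k * a / b := by rwa [lt_div_iff₀ hb0]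
  obtain ⟨w', hw'1, hw'2⟩ := exists_between hw₁b
  have hw'0 : 0 < w' := hw₁0.trans hw'1
  have hw'3 : w' * b < k * a := by rwa [lt_div_iff₀ hb0] at hw'2
  have hw'a : w' ≤ a := by
    have h1 : (k : ℝ) ≤ b := by rw [hb]; linarith
    have h2 : w' * b < a * b := by nlinarith
    exact (lt_of_mul_lt_mul_right h2 hb0.le).le
  have hA : ∃ X₀ : ℝ, ∀ B ≥ X₀, ∃ j ≤ m + k, (X ^ j : ℚ[X]) ∉ spanQ (G ξ (m + k) B w₁) := by
    by_contra h
    push Not at h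
    exact hfin (davenport_schmidt ξ hξ (m + k) (by omega) w w₁ (by linarith)
      (by rw [hw₁]; linarith) h)
  have hB := lower_general ξ hξ (m + k) k (by omega) hk w hw hfin
  obtain ⟨X₁, hX₁⟩ := main_lemma ξ hξ m k hkm w₁ w' hw₁0.le hw'1 hA hB
  set C : ℝ := (2 * ((m + 1) * (1 + |ξ|) ^ m) + 2) * 3 ^ (m - k) with hC
  set e : ℝ := k * a / w' - b with he
  have he0 : 0 < e := by
    rw [he, sub_pos, lt_div_iff₀ hw'0]
    linarith
  have ev1 : ∀ᶠ s : ℝ in Filter.atTop, C < s ^ e :=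
    (tendsto_rpow_atTop he0).eventually_gt_atTop _
  have ev2 : ∀ᶠ s : ℝ in Filter.atTop, X₁ ≤ s ^ (a / w') :=
    (tendsto_rpow_atTop (by positivity)).eventually_ge_atTop _
  obtain ⟨S, hS⟩ := Filter.eventually_atTop.1 (ev1.and (ev2.and
    (Filter.eventually_ge_atTop (1 : ℝ))))
  obtain ⟨Bs, hBsS, hBs⟩ := hs S
  obtain ⟨e1, e2, e3⟩ := hS Bs hBsS
  have hBs0 : 0 < Bs := by linarith
  set B : ℝ := Bs ^ (a / w') with hBdef
  have hBB : Bs ≤ B := by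
    calc Bs = Bs ^ (1 : ℝ) := (Real.rpow_one _).symm
      _ ≤ B := Real.rpow_le_rpow_of_exponent_le e3 (by rw [le_div_iff₀ hw'0]; linarith)
  have hB0 : 0 < B := by linarith
  have hv : Bs ^ (-a) = B ^ (-w') := by
    rw [hBdef, ← Real.rpow_mul hBs0.le]
    congr 1
    field_simp
  have hv0 : 0 < Bs ^ (-a) := Real.rpow_pos_of_pos hBs0 _
  have hv1 : Bs ^ (-a) ≤ 1 := Real.rpow_le_one_of_one_le_of_nonpos e3 (by linarith)
  have hr := hX₁ B e2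
  have h1 := count ξ m (m - k) B Bs w' (Bs ^ (-a)) e3 hBB hv hv0 hv1 (by
    intro P hP hd hPv
    by_contra hlt
    push Not at hlt
    exact absurd (hBs P hP hd hlt) (not_lt.2 hPv)) (by omega)
  -- conclude
  have h2 : B ^ (m + 1) = B ^ k * B ^ (m - k) * B := by
    rw [← pow_add, ← pow_succ]; congr 2; omega
  have h3 : (2 * ((m + 1) * (1 + |ξ|) ^ m) + 2) * (B / Bs ^ (-a)) * (3 * B / Bs) ^ (m - k)
      = C * (Bs ^ a / Bs ^ (m - k)) * (B ^ (m - k) * B) := by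
    rw [div_pow, mul_pow, Real.rpow_neg hBs0.le, hC]
    have : (0 : ℝ) < Bs ^ a := Real.rpow_pos_of_pos hBs0 _
    field_simp
  rw [h2, h3, mul_assoc (B ^ k)] at h1
  have h4 : 0 < B ^ (m - k) * B := by positivity
  have h5 : B ^ k ≤ C * (Bs ^ a / Bs ^ (m - k)) := le_of_mul_le_mul_right h1 h4
  have h6 : B ^ k = Bs ^ (k * a / w') := by
    rw [hBdef, ← Real.rpow_natCast, ← Real.rpow_mul hBs0.le]
    congr 1
    ring
  have h7 : Bs ^ a / Bs ^ (m - k) = Bs ^ b := by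
    rw [← Real.rpow_natCast, ← Real.rpow_sub hBs0, hb]
    congr 1
    rw [Nat.cast_sub hkm]
    ring
  have h8 : Bs ^ (k * a / w') = Bs ^ e * Bs ^ b := by
    rw [← Real.rpow_add hBs0, he]; congr 1; ring
  rw [h6, h7, h8] at h5
  have h9 : Bs ^ e ≤ C := le_of_mul_le_mul_right h5 (Real.rpow_pos_of_pos hBs0 _)
  linarith

/-- If `ŵ_m ≤ (1 + ε²/16) m` for infinitely many `m` then
`w*_n ≥ (1 - ε) (n + 1) - 1` for infinitely many `n`. -/
theorem eps_version (ξ : ℝ) (hξ : Transcendental ℤ ξ) (ε : ℝ) (hε : 0 < ε) (hε1 : ε ≤ 1 / 2)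
    (h : ∀ N : ℕ, ∃ m : ℕ, N ≤ m ∧ ∀ X₀ : ℝ, ∃ Y ≥ X₀, ∀ P : ℤ[X], P ≠ 0 →
      P.natDegree ≤ m → (ht P : ℝ) ≤ Y → Y ^ (-((1 + ε ^ 2 / 16) * (m : ℝ))) < |aeval ξ P|) :
    ∀ N : ℕ, ∃ n : ℕ, N ≤ n ∧ (A ξ n ((1 - ε) * ((n : ℝ) + 1) - 1)).Infinite := by
  intro N
  obtain ⟨m, hm, hs⟩ := h (N + ⌈100 / ε ^ 2⌉₊ + 1)
  have hmN : N ≤ m := by omega
  have hm1 : 1 ≤ m := by omega
  have hmε : 100 / ε ^ 2 ≤ m := by
    refine (Nat.le_ceil _).trans ?_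
    exact_mod_cast (by omega)
  set k : ℕ := ⌈ε * m / 5⌉₊ with hk
  have hm0 : (1 : ℝ) ≤ m := by exact_mod_cast hm1
  have hk1 : ε * m / 5 ≤ k := Nat.le_ceil _
  have hk2 : (k : ℝ) < ε * m / 5 + 1 := Nat.ceil_lt_add_one (by positivity)
  have hmε' : 100 ≤ ε ^ 2 * m := by
    rw [div_le_iff₀ (by positivity)] at hmε
    linarith
  have hεm : 200 ≤ ε * m := by nlinarith
  have hm400 : (400 : ℝ) ≤ m := by nlinarith
  have hkpos : 1 ≤ k := by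
    rw [hk, Nat.one_le_ceil_iff]
    positivity
  have hk0 : (1 : ℝ) ≤ k := by exact_mod_cast hkpos
  have hkm : k ≤ m := by
    have : (k : ℝ) ≤ m := by nlinarith
    exact_mod_cast this
  refine ⟨m + k, by omega, ?_⟩
  apply pointwise ξ hξ m k hkpos hkm _ ((1 + ε ^ 2 / 16) * m) _ _ _ hs
  · push_cast
    nlinarith
  · nlinarith [sq_nonneg ε]
  · push_cast
    -- ((1-ε)(m+k+1) - 1 + 2k + 1) (σ m + k) < k (1+σ) m
    have hσ : (1 + ε ^ 2 / 16) * (m : ℝ) - m + k ≤ (1 + 5 * ε / 16) * k := by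
      nlinarith
    have h1 : (1 - ε) * ((m : ℝ) + k + 1) - 1 + 2 * k + 1 ≤ (1 - 2 * ε / 5) * m + 4 := by
      nlinarith
    have h0 : 0 < (1 - ε) * ((m : ℝ) + k + 1) - 1 + 2 * k + 1 := by nlinarith
    have h2 : ((1 - 2 * ε / 5) * (m : ℝ) + 4) * (1 + 5 * ε / 16) < m := by
      nlinarith
    have hkk : (0 : ℝ) < k := by linarith
    calc ((1 - ε) * ((m : ℝ) + k + 1) - 1 + 2 * k + 1) * ((1 + ε ^ 2 / 16) * (m : ℝ) - m + k)
        ≤ ((1 - ε) * ((m : ℝ) + k + 1) - 1 + 2 * k + 1) * ((1 + 5 * ε / 16) * k) :=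
          mul_le_mul_of_nonneg_left hσ h0.le
      _ ≤ ((1 - 2 * ε / 5) * m + 4) * ((1 + 5 * ε / 16) * k) :=
          mul_le_mul_of_nonneg_right h1 (by positivity)
      _ = ((1 - 2 * ε / 5) * m + 4) * (1 + 5 * ε / 16) * k := by ring
      _ < m * k := mul_lt_mul_of_pos_right h2 hkk
      _ ≤ k * ((1 + ε ^ 2 / 16) * m) := by
          have : (m : ℝ) ≤ (1 + ε ^ 2 / 16) * m := by nlinarith [sq_nonneg ε]
          nlinarith

end Pool.Agent.H81S
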