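import Pool.Agent.H81S.DS

set_option autoImplicit false

namespace Pool.Agent.H81S

open Polynomial

/-- multiplication by a polynomial, as a linear map -/
noncomputable def mulBy (g : ℚ[X]) : ℚ[X] →ₗ[ℚ] ℚ[X] := LinearMap.mulLeft ℚ g

@[simp] theorem mulBy_apply (g p : ℚ[X]) : mulBy g p = g * p := rfl

theorem mulBy_injective {g : ℚ[X]} (hg : g ≠ 0) : Function.Injective (mulBy g) := by
  intro a b h
  simp only [mulBy_apply] at h
  exact mul_left_cancel₀ hg h

theorem finrank_map_mulBy {g : ℚ[X]} (hg : g ≠ 0) (W : Submodule ℚ ℚ[X]) :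
    Module.finrank ℚ (W.map (mulBy g)) = Module.finrank ℚ W :=
  (Submodule.equivMapOfInjective (mulBy g) (mulBy_injective hg) W).finrank_eq.symm

/-- shift of a space of polynomials -/
noncomputable def shift (W : Submodule ℚ ℚ[X]) : Submodule ℚ ℚ[X] := W.map (mulBy X)

theorem mem_degreeLT_iff (n : ℕ) (p : ℚ[X]) : p ∈ degreeLT ℚ (n + 1) ↔ p.natDegree ≤ n := by
  rw [mem_degreeLT, degree_lt_iff_coeff_zero, natDegree_le_iff_coeff_eq_zero]
  constructor
  · intro h m hm
    exact h m hm
  · intro h m hm
    exact h m hm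

theorem shift_le (W : Submodule ℚ ℚ[X]) (N : ℕ) (hW : W ≤ degreeLT ℚ N) :
    shift W ≤ degreeLT ℚ (N + 1) := by
  rintro _ ⟨v, hv, rfl⟩
  rw [mulBy_apply, mem_degreeLT_iff]
  have h1 := hW hv
  rw [mem_degreeLT] at h1
  by_cases hv0 : v = 0
  · simp [hv0]
  · rw [natDegree_X_mul hv0]
    have := (natDegree_lt_iff_degree_lt hv0).2 h1
    omega

/-- a nonzero finite dimensional space is not stable under multiplication by `X` -/
theorem not_shift_le (W : Submodule ℚ ℚ[X]) (N : ℕ) (hW : W ≤ degreeLT ℚ N) (h0 : W ≠ ⊥) :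
    ¬ shift W ≤ W := by
  intro h
  obtain ⟨v, hv, hv0⟩ := Submodule.exists_mem_ne_zero_of_ne_bot h0
  have h1 : ∀ k : ℕ, X ^ k * v ∈ W := by
    intro k
    induction k with
    | zero => simpa using hv
    | succ k ih =>
      have : X ^ (k + 1) * v = mulBy X (X ^ k * v) := by
        rw [mulBy_apply, pow_succ]; ring
      rw [this]
      exact h (Submodule.mem_map_of_mem ih)
  have h2 := hW (h1 N)
  rw [mem_degreeLT] at h2
  have h3 : X ^ N * v ≠ 0 := mul_ne_zero (pow_ne_zero _ X_ne_zero) hv0
  have h4 := (natDegree_lt_iff_degree_lt h3).2 h2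
  rw [natDegree_X_pow_mul _ hv0] at h4
  omega

theorem finite_of_le (W : Submodule ℚ ℚ[X]) (N : ℕ) (hW : W ≤ degreeLT ℚ N) :
    Module.Finite ℚ W := Submodule.finiteDimensional_of_le hW

/-- the part of `W` which `X` multiplies into `W` -/
noncomputable def core (W : Submodule ℚ ℚ[X]) : Submodule ℚ ℚ[X] := W ⊓ W.comap (mulBy X)

theorem shift_core (W : Submodule ℚ ℚ[X]) : shift (core W) = W ⊓ shift W := by
  ext p
  constructor
  · rintro ⟨v, ⟨hv1, hv2⟩, rfl⟩
    exact ⟨hv2, ⟨v, hv1, rfl⟩⟩
  · rintro ⟨h1, ⟨v, hv, rfl⟩⟩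
    exact ⟨v, ⟨hv, h1⟩, rfl⟩

/-- if `W + XW` is only one dimension larger than `W`, then `W` consists of all multiples of one
polynomial up to a given degree. -/
theorem structure_lemma : ∀ (d N : ℕ) (W : Submodule ℚ ℚ[X]), W ≤ degreeLT ℚ N →
    Module.finrank ℚ W = d + 1 → Module.finrank ℚ (W ⊔ shift W : Submodule ℚ ℚ[X]) ≤ d + 2 →
    ∃ g : ℚ[X], g ≠ 0 ∧ W = (degreeLT ℚ (d + 1)).map (mulBy g) := by
  intro d
  induction d with
  | zero =>
    intro N W hW hd _
    have hfin := finite_of_le W N hW
    obtain ⟨⟨v, hv⟩, hv0, hvs⟩ := finrank_eq_one_iff'.1 hd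
    have hv0' : v ≠ 0 := by
      intro h; apply hv0; ext1; exact h
    refine ⟨v, hv0', ?_⟩
    ext p
    constructor
    · intro hp
      obtain ⟨c, hc⟩ := hvs ⟨p, hp⟩
      refine ⟨C c, ?_, ?_⟩
      · rw [SetLike.mem_coe, mem_degreeLT_iff]; simp
      · have h1 := congrArg Subtype.val hc
        simp only [Submodule.coe_smul] at h1
        rw [mulBy_apply, ← h1, smul_eq_C_mul, mul_comm]
    · rintro ⟨q, hq, rfl⟩
      rw [SetLike.mem_coe, mem_degreeLT_iff] at hq
      have hq2 := eq_C_of_natDegree_le_zero hq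
      rw [mulBy_apply, hq2, mul_comm, ← smul_eq_C_mul]
      exact W.smul_mem _ hv
  | succ d ih =>
    intro N W hW hd hsup
    have hfin := finite_of_le W N hW
    have hfin2 := finite_of_le (shift W) (N + 1) (shift_le W N hW)
    have h1 := Submodule.finrank_sup_add_finrank_inf_eq W (shift W)
    have h2 : Module.finrank ℚ (shift W) = Module.finrank ℚ W := finrank_map_mulBy X_ne_zero W
    have h3 : Module.finrank ℚ (shift (core W)) = Module.finrank ℚ (core W) :=
      finrank_map_mulBy X_ne_zero (core W)
    rw [shift_core] at h3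
    have hcoreN : core W ≤ degreeLT ℚ N := inf_le_left.trans hW
    have hcore_lt : core W < W := by
      apply lt_of_le_of_ne inf_le_left
      intro h
      apply not_shift_le W N hW (by
        intro hb; rw [hb] at hd; simp at hd)
      have h' : core W = W := h
      have h8 := shift_core W
      rw [h'] at h8
      rw [h8]
      exact inf_le_left
    have h4 : Module.finrank ℚ (core W) < Module.finrank ℚ W := Submodule.finrank_lt_finrank_of_lt hcore_lt
    have h5 : Module.finrank ℚ (core W) = d + 1 := by omega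
    have hle : core W ⊔ shift (core W) ≤ W := by
      rw [shift_core]
      exact sup_le inf_le_left inf_le_left
    have h6 : Module.finrank ℚ (core W ⊔ shift (core W) : Submodule ℚ ℚ[X]) ≤ d + 2 := by
      have := Submodule.finrank_mono hle
      omega
    obtain ⟨g, hg0, hg⟩ := ih N (core W) hcoreN h5 h6
    refine ⟨g, hg0, ?_⟩
    have h7 : (degreeLT ℚ (d + 1 + 1)).map (mulBy g) ≤ W := by
      rintro _ ⟨p, hp, rfl⟩
      rw [SetLike.mem_coe, mem_degreeLT_iff] at hp
      have hdiv := divX_mul_X_add p
      rw [mulBy_apply]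
      have h8 : g * p = mulBy X (g * p.divX) + g * C (p.coeff 0) := by
        rw [mulBy_apply]
        conv_lhs => rw [← hdiv]
        ring
      rw [h8]
      apply W.add_mem
      · apply hle
        apply Submodule.mem_sup_right
        apply Submodule.mem_map_of_mem
        rw [hg]
        refine ⟨p.divX, ?_, rfl⟩
        rw [SetLike.mem_coe, mem_degreeLT_iff, natDegree_divX_eq_natDegree_tsub_one]
        omega
      · apply hle
        apply Submodule.mem_sup_left
        rw [hg]
        refine ⟨C (p.coeff 0), ?_, rfl⟩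
        rw [SetLike.mem_coe, mem_degreeLT_iff]
        simp
    symm
    apply Submodule.eq_of_le_of_finrank_eq h7
    rw [finrank_map_mulBy hg0, finrank_degreeLT, hd]

/-- iterated sums `W + XW + ... + X^j W`. -/
noncomputable def iter (W : Submodule ℚ ℚ[X]) : ℕ → Submodule ℚ ℚ[X]
  | 0 => W
  | (j + 1) => iter W j ⊔ shift (iter W j)

theorem le_iter (W : Submodule ℚ ℚ[X]) (j : ℕ) : W ≤ iter W j := by
  induction j with
  | zero => exact le_rfl
  | succ j ih => exact ih.trans le_sup_left

theorem iter_le (W : Submodule ℚ ℚ[X]) (M : ℕ) (hW : W ≤ degreeLT ℚ (M + 1)) (j : ℕ) :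
    iter W j ≤ degreeLT ℚ (M + j + 1) := by
  induction j with
  | zero => exact hW
  | succ j ih =>
    apply sup_le
    · exact ih.trans (degreeLT_mono (by omega))
    · exact shift_le _ _ ih

theorem growth (W : Submodule ℚ ℚ[X]) (M : ℕ) (hW : W ≤ degreeLT ℚ (M + 1))
    (hM : ∃ v ∈ W, v ≠ 0 ∧ v.natDegree = M)
    (hg : ∀ g : ℚ[X], (∀ v ∈ W, g ∣ v) → IsUnit g) (j : ℕ) :
    min (M + j + 1) (Module.finrank ℚ W + 2 * j) ≤ Module.finrank ℚ (iter W j) := by
  obtain ⟨v, hv, hv0, hvM⟩ := hM
  induction j with
  | zero =>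
    have : iter W 0 = W := rfl
    rw [this]
    omega
  | succ j ih =>
    have hle := iter_le W M hW j
    have hle' := iter_le W M hW (j + 1)
    have hfin := finite_of_le _ _ hle
    have hfin' := finite_of_le _ _ hle'
    have hbot : iter W j ≠ ⊥ := by
      intro h
      have := le_iter W j hv
      rw [h] at this
      exact hv0 (by simpa using this)
    by_cases hcase : Module.finrank ℚ (iter W j) + 2 ≤ Module.finrank ℚ (iter W (j + 1))
    · omega
    · push Not at hcase
      obtain ⟨a, ha⟩ : ∃ a, Module.finrank ℚ (iter W j) = a + 1 := by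
        have : Module.finrank ℚ (iter W j) ≠ 0 := by
          intro h0
          exact hbot (Submodule.finrank_eq_zero.1 h0)
        exact Nat.exists_eq_succ_of_ne_zero this
      have hsup : Module.finrank ℚ (iter W j ⊔ shift (iter W j) : Submodule ℚ ℚ[X]) ≤ a + 2 := by
        have : Module.finrank ℚ (iter W (j + 1)) =
          Module.finrank ℚ (iter W j ⊔ shift (iter W j) : Submodule ℚ ℚ[X]) := rfl
        omega
      obtain ⟨g, hg0, hgW⟩ := structure_lemma a _ (iter W j) hle ha hsup
      have hunit : IsUnit g := by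
        apply hg
        intro u hu
        have := le_iter W j hu
        rw [hgW] at this
        obtain ⟨q, _, rfl⟩ := this
        exact dvd_mul_right _ _
      -- an element of degree `M + j`
      have hXj : X ^ j * v ∈ iter W j := by
        clear ih hle hle' hfin hfin' hbot hcase ha hsup hgW
        induction j with
        | zero => simpa [iter] using hv
        | succ j ih =>
          apply Submodule.mem_sup_right
          have : X ^ (j + 1) * v = mulBy X (X ^ j * v) := by
            rw [mulBy_apply, pow_succ]; ring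
          rw [this]
          exact Submodule.mem_map_of_mem ih
      rw [hgW] at hXj
      obtain ⟨q, hq, hqe⟩ := hXj
      rw [SetLike.mem_coe, mem_degreeLT_iff] at hq
      rw [mulBy_apply] at hqe
      have hq0 : q ≠ 0 := by
        rintro rfl
        rw [mul_zero] at hqe
        exact mul_ne_zero (pow_ne_zero j X_ne_zero) hv0 hqe.symm
      have hdeg := congrArg natDegree hqe
      rw [natDegree_mul hg0 hq0, natDegree_X_pow_mul _ hv0, natDegree_eq_zero_of_isUnit hunit,
        hvM] at hdeg
      have hlt : iter W j < iter W (j + 1) := by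
        apply lt_of_le_of_ne le_sup_left
        intro h
        apply not_shift_le _ _ hle hbot
        calc shift (iter W j) ≤ iter W (j + 1) := le_sup_right
          _ = iter W j := h.symm
      have := Submodule.finrank_lt_finrank_of_lt hlt
      omega

end Pool.Agent.H81S
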