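import Pool.Agent.H81S.Count

set_option autoImplicit false

namespace Pool.Agent.H81S

open Polynomial

theorem one_le_abs_of_const (f : ℤ[X]) (hf : f ≠ 0) (hd : f.natDegree = 0) (ξ : ℝ) :
    1 ≤ |aeval ξ f| := by
  obtain ⟨c, rfl⟩ := natDegree_eq_zero.1 hd
  have hc : c ≠ 0 := by
    rintro rfl
    exact hf (map_zero C)
  have h1 : aeval ξ (C c) = (c : ℝ) := by
    rw [aeval_C]; rfl
  rw [h1, ← Int.cast_abs]
  exact_mod_cast Int.one_le_abs hc

theorem sum_sylvester_col (g : ℤ[X]) (N n j : ℕ) (hg : g.natDegree ≤ n) (hj : j + n < N) (ξ : ℝ) :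
    ∑ i : Fin N, ξ ^ (i : ℕ) * (((if (i : ℕ) ∈ Set.Icc j (j + n) then g.coeff (i - j) else 0 : ℤ)) : ℝ)
      = ξ ^ j * aeval ξ g := by
  rw [Fin.sum_univ_eq_sum_range (fun i => ξ ^ i *
    (((if i ∈ Set.Icc j (j + n) then g.coeff (i - j) else 0 : ℤ)) : ℝ)) N]
  have h1 : ξ ^ j * aeval ξ g = aeval ξ (X ^ j * g) := by simp
  have h2 : (X ^ j * g).natDegree < N := by
    refine lt_of_le_of_lt natDegree_mul_le ?_
    rw [natDegree_X_pow]
    omega
  rw [h1, aeval_eq_sum_range' h2]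
  apply Finset.sum_congr rfl
  intro i _
  rw [coeff_X_pow_mul']
  rw [zsmul_eq_mul, mul_comm]
  congr 2
  by_cases hij : j ≤ i
  · rw [if_pos hij]
    by_cases hin : i ≤ j + n
    · rw [if_pos ⟨hij, hin⟩]
    · rw [if_neg (fun h => hin h.2), coeff_eq_zero_of_natDegree_lt]
      omega
  · rw [if_neg hij, if_neg (fun h => hij h.1)]

/-- if `f`, `g` have nonzero resultant then they cannot both be tiny at `ξ`. -/
theorem resultant_bound (f g : ℤ[X]) (m n : ℕ) (hf : f.natDegree ≤ m) (hg : g.natDegree ≤ n)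
    (hmn : 0 < m + n) (hres : resultant f g m n ≠ 0) (ξ : ℝ) (x : ℝ) (hx : 1 ≤ x)
    (hfx : ∀ i, |(f.coeff i : ℝ)| ≤ x) (hgx : ∀ i, |(g.coeff i : ℝ)| ≤ x) :
    1 ≤ ((m + n : ℕ) : ℝ) * ((1 + |ξ|) ^ (m + n) * (((m + n).factorial : ℝ) * x ^ (m + n))) *
      (|aeval ξ f| + |aeval ξ g|) := by
  set S : Matrix (Fin (m + n)) (Fin (m + n)) ℝ := (sylvester f g m n).map (Int.castRingHom ℝ) with hS
  have hdet : S.det = ((resultant f g m n : ℤ) : ℝ) := by
    rw [hS, resultant]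
    exact ((Int.castRingHom ℝ).map_det _).symm
  have hdet1 : 1 ≤ |S.det| := by
    rw [hdet, ← Int.cast_abs]
    exact_mod_cast Int.one_le_abs hres
  have hSx : ∀ i j, |S i j| ≤ x := by
    intro i j
    rw [hS, Matrix.map_apply]
    unfold sylvester
    rw [Matrix.of_apply]
    induction j using Fin.addCases with
    | left j =>
      rw [Fin.addCases_left]
      split_ifs
      · exact hgx _
      · simp; linarith
    | right j =>
      rw [Fin.addCases_right]
      split_ifs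
      · exact hfx _
      · simp; linarith
  set u : Fin (m + n) → ℝ := fun i => ξ ^ (i : ℕ) with hu
  set e : ℝ := |aeval ξ f| + |aeval ξ g| with he
  have hcol : ∀ j, |Matrix.vecMul u S j| ≤ (1 + |ξ|) ^ (m + n) * e := by
    intro j
    have hpow : ∀ i : ℕ, i ≤ m + n → |ξ ^ i| ≤ (1 + |ξ|) ^ (m + n) := by
      intro i hi
      rw [abs_pow]
      calc |ξ| ^ i ≤ (1 + |ξ|) ^ i := by
            apply pow_le_pow_left₀ (abs_nonneg _); linarith [abs_nonneg ξ]
        _ ≤ (1 + |ξ|) ^ (m + n) := by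
            apply pow_le_pow_right₀
            · linarith [abs_nonneg ξ]
            · omega
    induction j using Fin.addCases with
    | left j =>
      have h1 : Matrix.vecMul u S (Fin.castAdd n j) = ξ ^ (j : ℕ) * aeval ξ g := by
        rw [← sum_sylvester_col g (m + n) n j hg (by have := j.2; omega) ξ]
        simp only [Matrix.vecMul, dotProduct, hu, hS, Matrix.map_apply, sylvester, Matrix.of_apply,
          Fin.addCases_left, eq_intCast]
      rw [h1, abs_mul]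
      apply mul_le_mul (hpow _ (by have := j.2; omega)) _ (abs_nonneg _) (by positivity)
      rw [he]; linarith [abs_nonneg (aeval ξ f)]
    | right j =>
      have h1 : Matrix.vecMul u S (Fin.natAdd m j) = ξ ^ (j : ℕ) * aeval ξ f := by
        rw [← sum_sylvester_col f (m + n) m j hf (by have := j.2; omega) ξ]
        simp only [Matrix.vecMul, dotProduct, hu, hS, Matrix.map_apply, sylvester, Matrix.of_apply,
          Fin.addCases_right, eq_intCast]
      rw [h1, abs_mul]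
      apply mul_le_mul (hpow _ (by have := j.2; omega)) _ (abs_nonneg _) (by positivity)
      rw [he]; linarith [abs_nonneg (aeval ξ g)]
  set z : Fin (m + n) := ⟨0, hmn⟩ with hz
  have hid : S.det = ∑ j, Matrix.vecMul u S j * S.adjugate j z := by
    have h1 : Matrix.vecMul (Matrix.vecMul u S) S.adjugate = S.det • u := by
      rw [Matrix.vecMul_vecMul, Matrix.mul_adjugate, Matrix.vecMul_smul, Matrix.vecMul_one]
    have h2 := congrFun h1 z
    rw [Pi.smul_apply, smul_eq_mul] at h2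
    have h3 : u z = 1 := by simp [hu, hz]
    rw [h3, mul_one] at h2
    rw [← h2]
    rfl
  have hadj : ∀ j, |S.adjugate j z| ≤ ((m + n).factorial : ℝ) * x ^ (m + n) := by
    intro j
    rw [Matrix.adjugate_apply]
    have h1 := Matrix.det_le (A := S.updateRow z (Pi.single j 1)) (abv := AbsoluteValue.abs)
      (x := x) (by
        intro a b
        rw [Matrix.updateRow_apply]
        split_ifs
        · by_cases hb : b = j
          · rw [hb]; simpa using hx
          · rw [Pi.single_eq_of_ne hb]; simp; linarith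
        · exact hSx a b)
    simpa [nsmul_eq_mul] using h1
  calc (1 : ℝ) ≤ |S.det| := hdet1
    _ = |∑ j, Matrix.vecMul u S j * S.adjugate j z| := by rw [← hid]
    _ ≤ ∑ j, |Matrix.vecMul u S j * S.adjugate j z| := Finset.abs_sum_le_sum_abs _ _
    _ ≤ ∑ j : Fin (m + n), ((1 + |ξ|) ^ (m + n) * e) *
        (((m + n).factorial : ℝ) * x ^ (m + n)) := by
        apply Finset.sum_le_sum
        intro j _
        rw [abs_mul]
        apply mul_le_mul (hcol j) (hadj j) (abs_nonneg _)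
        have : 0 ≤ e := by rw [he]; positivity
        positivity
    _ = _ := by
        rw [Finset.sum_const, Finset.card_univ, Fintype.card_fin, nsmul_eq_mul]
        ring

theorem resultant_deriv_ne_zero (f : ℤ[X]) (hf : Irreducible f) (hd : 1 ≤ f.natDegree) :
    resultant f (derivative f) f.natDegree (f.natDegree - 1) ≠ 0 := by
  have hprim : f.IsPrimitive := hf.isPrimitive (by omega)
  have hirr : Irreducible (f.map (Int.castRingHom ℚ)) :=
    (IsPrimitive.Int.irreducible_iff_irreducible_map_cast hprim).1 hf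
  have hsep : (f.map (Int.castRingHom ℚ)).Separable := hirr.separable
  have hcop : IsCoprime (f.map (Int.castRingHom ℚ)) (derivative (f.map (Int.castRingHom ℚ))) := hsep
  have h1 := resultant_ne_zero _ _ hcop
  have hnd : (f.map (Int.castRingHom ℚ)).natDegree = f.natDegree :=
    natDegree_map_eq_of_injective (RingHom.injective_int _) _
  have hnd' : (derivative (f.map (Int.castRingHom ℚ))).natDegree = f.natDegree - 1 := by
    rw [natDegree_derivative, hnd]
  rw [hnd, hnd', Polynomial.derivative_map, resultant_map_map] at h1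
  intro h
  rw [h] at h1
  simp at h1

/-- irreducible polynomials cannot be tiny at `ξ` together with their derivative -/
theorem deriv_lower (ξ : ℝ) (k : ℕ) (hk : 1 ≤ k) :
    ∃ c : ℝ, 0 < c ∧ ∀ f : ℤ[X], Irreducible f → 1 ≤ f.natDegree → f.natDegree ≤ k →
      c * (ht f : ℝ) ^ (-(2 * (k : ℝ) - 1)) ≤ |aeval ξ f| + |aeval ξ (derivative f)| := by
  set C : ℝ := ((2 * k : ℕ) : ℝ) * ((1 + |ξ|) ^ (2 * k) *
    (((2 * k).factorial : ℝ) * (k : ℝ) ^ (2 * k))) with hC
  have hk0 : (1 : ℝ) ≤ k := by exact_mod_cast hk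
  have hC0 : 0 < C := by positivity
  refine ⟨1 / C, by positivity, ?_⟩
  intro f hf hd hdk
  set d := f.natDegree with hdd
  have hH : (1 : ℝ) ≤ ht f := ht_pos_real hf.ne_zero
  have hH0 : (0 : ℝ) < ht f := by linarith
  set x : ℝ := k * ht f with hx
  have hx1 : 1 ≤ x := by nlinarith
  have hfx : ∀ i, |(f.coeff i : ℝ)| ≤ x := by
    intro i
    refine (abs_coeff_le f i).trans ?_
    rw [hx]; nlinarith
  have hgx : ∀ i, |((derivative f).coeff i : ℝ)| ≤ x := by
    intro i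
    have h1 := coeff_derivative_bound (f.map (Int.castRingHom ℝ)) k
      (natDegree_map_le.trans hdk) (ht f) (fun i => by rw [coeff_map]; exact abs_coeff_le f i) i
    rw [derivative_map, coeff_map] at h1
    exact h1
  have h1 := resultant_bound f (derivative f) d (d - 1) le_rfl
    (by have := natDegree_derivative_le f; omega) (by omega)
    (resultant_deriv_ne_zero f hf hd) ξ x hx1 hfx hgx
  set e : ℝ := |aeval ξ f| + |aeval ξ (derivative f)| with he
  have he0 : 0 ≤ e := by positivity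
  have hN : d + (d - 1) ≤ 2 * k - 1 := by omega
  have h2 : ((d + (d - 1) : ℕ) : ℝ) * ((1 + |ξ|) ^ (d + (d - 1)) *
      (((d + (d - 1)).factorial : ℝ) * x ^ (d + (d - 1)))) ≤ C * (ht f : ℝ) ^ (2 * k - 1) := by
    have ha : ((d + (d - 1) : ℕ) : ℝ) ≤ ((2 * k : ℕ) : ℝ) := by exact_mod_cast (by omega)
    have hb : (1 + |ξ|) ^ (d + (d - 1)) ≤ (1 + |ξ|) ^ (2 * k) :=
      pow_le_pow_right₀ (by linarith [abs_nonneg ξ]) (by omega)
    have hc : ((d + (d - 1)).factorial : ℝ) ≤ ((2 * k).factorial : ℝ) := by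
      exact_mod_cast Nat.factorial_le (by omega)
    have hd' : x ^ (d + (d - 1)) ≤ (k : ℝ) ^ (2 * k) * (ht f : ℝ) ^ (2 * k - 1) := by
      rw [hx, mul_pow]
      apply mul_le_mul
      · exact pow_le_pow_right₀ hk0 (by omega)
      · exact pow_le_pow_right₀ hH hN
      · positivity
      · positivity
    calc ((d + (d - 1) : ℕ) : ℝ) * ((1 + |ξ|) ^ (d + (d - 1)) *
          (((d + (d - 1)).factorial : ℝ) * x ^ (d + (d - 1))))
        ≤ ((2 * k : ℕ) : ℝ) * ((1 + |ξ|) ^ (2 * k) *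
          (((2 * k).factorial : ℝ) * ((k : ℝ) ^ (2 * k) * (ht f : ℝ) ^ (2 * k - 1)))) := by
          apply mul_le_mul ha _ (by positivity) (by positivity)
          apply mul_le_mul hb _ (by positivity) (by positivity)
          apply mul_le_mul hc hd' (by positivity) (by positivity)
      _ = C * (ht f : ℝ) ^ (2 * k - 1) := by rw [hC]; ring
  have h3 : 1 ≤ C * (ht f : ℝ) ^ (2 * k - 1) * e := h1.trans (mul_le_mul_of_nonneg_right h2 he0)
  have h4 : (ht f : ℝ) ^ (-(2 * (k : ℝ) - 1)) = ((ht f : ℝ) ^ (2 * k - 1))⁻¹ := by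
    rw [Real.rpow_neg hH0.le, ← Real.rpow_natCast]
    congr 2
    push_cast [show 1 ≤ 2 * k by omega]
    ring
  rw [h4]
  have h5 : 0 < (ht f : ℝ) ^ (2 * k - 1) := by positivity
  rw [div_mul_eq_mul_div, one_mul, div_le_iff₀ hC0, inv_le_iff_one_le_mul₀ h5]
  calc 1 ≤ C * (ht f : ℝ) ^ (2 * k - 1) * e := h3
    _ = e * C * (ht f : ℝ) ^ (2 * k - 1) := by ring

theorem lower_irred (ξ : ℝ) (hξ : Transcendental ℤ ξ) (n k : ℕ) (hkn : k ≤ n) (hk : 1 ≤ k)
    (w : ℝ) (hw : 2 * (k : ℝ) ≤ w) (hfin : ¬ (A ξ n w).Infinite) :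
    ∃ c : ℝ, 0 < c ∧ c ≤ 1 ∧ ∀ f : ℤ[X], Irreducible f → f.natDegree ≤ k →
      c * (ht f : ℝ) ^ (-(w + 2 * k + 1)) ≤ |aeval ξ f| := by
  -- elements of `A` stay away from `ξ`
  have hfar : ∃ η : ℝ, 0 < η ∧ ∀ α ∈ A ξ n w, η ≤ |ξ - α| := by
    by_contra h
    push Not at h
    exact hfin (infinite_of_close ξ n w h)
  obtain ⟨η, hη, hηA⟩ := hfar
  obtain ⟨K, hK1, hK⟩ := approx_of_poly ξ hξ k
  obtain ⟨c₁, hc₁, hc₁b⟩ := deriv_lower ξ k hk
  have hk0 : (1 : ℝ) ≤ k := by exact_mod_cast hk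
  set w₁ : ℝ := w + 2 * k + 1 with hw₁
  have hw₁0 : 0 < w₁ := by rw [hw₁]; linarith
  -- large height
  have ev1 : ∀ᶠ H : ℝ in Filter.atTop, 2 / c₁ ≤ H ^ (w + 2) :=
    (tendsto_rpow_atTop (show 0 < w + 2 by linarith)).eventually_ge_atTop _
  have ev2 : ∀ᶠ H : ℝ in Filter.atTop, 8 / c₁ * H ^ (-(w + 2)) < min 1 η := by
    have h1 : Filter.Tendsto (fun B : ℝ => 8 / c₁ * B ^ (-(w + 2))) Filter.atTop (nhds 0) := by
      have := (tendsto_rpow_neg_atTop (show 0 < w + 2 by linarith)).const_mul (8 / c₁)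
      simpa using this
    exact h1.eventually_lt_const (lt_min one_pos hη)
  have ev3 : ∀ᶠ H : ℝ in Filter.atTop, 16 * K / c₁ ^ 2 ≤ H ^ (w + 2 - 2 * k) :=
    (tendsto_rpow_atTop (show 0 < w + 2 - 2 * k by linarith)).eventually_ge_atTop _
  have ev4 : ∀ᶠ H : ℝ in Filter.atTop, 8 / c₁ * K ^ (w + 1) ≤ H :=
    Filter.eventually_ge_atTop _
  obtain ⟨H₁, hH₁⟩ := Filter.eventually_atTop.1 (ev1.and (ev2.and (ev3.and
    (ev4.and (Filter.eventually_ge_atTop (1 : ℝ))))))
  obtain ⟨η', hη', hη'1, hη'b⟩ := exists_lower ξ hξ k H₁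
  refine ⟨η', hη', hη'1, ?_⟩
  intro f hf hfd
  have hf0 : f ≠ 0 := hf.ne_zero
  have hH : (1 : ℝ) ≤ ht f := ht_pos_real hf0
  set H : ℝ := ((ht f : ℕ) : ℝ) with hHdef
  have hH0 : 0 < H := by linarith
  have hpow1 : H ^ (-w₁) ≤ 1 := Real.rpow_le_one_of_one_le_of_nonpos hH (by linarith)
  have hpow0 : 0 < H ^ (-w₁) := Real.rpow_pos_of_pos hH0 _
  by_cases hsmall : H ≤ H₁
  · calc η' * H ^ (-w₁) ≤ η' * 1 := mul_le_mul_of_nonneg_left hpow1 hη'.le
      _ = η' := mul_one _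
      _ ≤ _ := hη'b f hf0 hfd hsmall
  push Not at hsmall
  obtain ⟨e1, e2, e3, e4, e5⟩ := hH₁ H hsmall.le
  by_cases hd0 : f.natDegree = 0
  · have h3 : (1 : ℝ) ≤ |aeval ξ f| := one_le_abs_of_const f hf0 hd0 ξ
    calc η' * H ^ (-w₁) ≤ 1 * 1 := mul_le_mul hη'1 hpow1 hpow0.le zero_le_one
      _ = 1 := mul_one _
      _ ≤ _ := h3
  suffices h : H ^ (-w₁) ≤ |aeval ξ f| by
    calc η' * H ^ (-w₁) ≤ 1 * H ^ (-w₁) := mul_le_mul_of_nonneg_right hη'1 hpow0.le
      _ = H ^ (-w₁) := one_mul _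
      _ ≤ _ := h
  by_contra hlt
  push Not at hlt
  set e : ℝ := |aeval ξ f| with he
  have he0 : 0 < e := by
    rw [he, abs_pos]
    intro h
    exact hξ ⟨f, hf0, h⟩
  set D : ℝ := |aeval ξ (derivative f)| with hD
  have h1 := hc₁b f hf (by omega) hfd
  rw [← hHdef, ← he, ← hD] at h1
  set p : ℝ := H ^ (-(2 * (k : ℝ) - 1)) with hp
  have hp0 : 0 < p := Real.rpow_pos_of_pos hH0 _
  -- H^(-w₁) = H^(-(w+2)) * p
  have hfac : H ^ (-w₁) = H ^ (-(w + 2)) * p := by
    rw [hp, ← Real.rpow_add hH0, hw₁]; congr 1; ring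
  have hq0 : 0 < H ^ (-(w + 2)) := Real.rpow_pos_of_pos hH0 _
  have hq1 : H ^ (-(w + 2)) ≤ c₁ / 2 := by
    rw [Real.rpow_neg hH0.le, inv_le_comm₀ (Real.rpow_pos_of_pos hH0 _) (by positivity)]
    rw [inv_div]
    exact e1
  have hep : e ≤ c₁ / 2 * p := by
    calc e ≤ H ^ (-w₁) := hlt.le
      _ = H ^ (-(w + 2)) * p := hfac
      _ ≤ c₁ / 2 * p := mul_le_mul_of_nonneg_right hq1 hp0.le
  have hDp : c₁ / 2 * p ≤ D := by linarith
  have hD0 : 0 < D := lt_of_lt_of_le (by positivity) hDp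
  set δ : ℝ := 4 * e / D with hδ
  have hδ0 : 0 < δ := by positivity
  have hδle : δ ≤ 8 / c₁ * H ^ (-(w + 2)) := by
    rw [hδ, div_le_iff₀ hD0]
    calc 4 * e ≤ 4 * (H ^ (-(w + 2)) * p) := by rw [← hfac]; linarith
      _ = 8 / c₁ * H ^ (-(w + 2)) * (c₁ / 2 * p) := by field_simp; ring
      _ ≤ 8 / c₁ * H ^ (-(w + 2)) * D := mul_le_mul_of_nonneg_left hDp (by positivity)
  have hδ1 : δ ≤ 1 := (hδle.trans e2.le).trans (min_le_left _ _)
  have hδη : δ < η := lt_of_le_of_lt hδle (lt_of_lt_of_le e2 (min_le_right _ _))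
  obtain ⟨α, g, hg, hgd, hgα, hα0, hα, hgh⟩ := hK f H D e δ hf0 hfd le_rfl le_rfl le_rfl hδ0 hδ1
    (by
      have h2 : K * H * (8 / c₁ * H ^ (-(w + 2))) ≤ c₁ / 2 * p := by
        have h3 : p = H ^ (w + 2 - 2 * k) * (H * H ^ (-(w + 2))) := by
          rw [hp]
          have : H * H ^ (-(w + 2)) = H ^ (1 + -(w + 2)) := by
            rw [Real.rpow_add hH0, Real.rpow_one]
          rw [this, ← Real.rpow_add hH0]
          congr 1; ring
        rw [h3]
        have h4 : 0 < H * H ^ (-(w + 2)) := by positivity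
        calc K * H * (8 / c₁ * H ^ (-(w + 2)))
            = (c₁ / 2 * (16 * K / c₁ ^ 2)) * (H * H ^ (-(w + 2))) := by field_simp; ring
          _ ≤ (c₁ / 2 * H ^ (w + 2 - 2 * k)) * (H * H ^ (-(w + 2))) := by
              apply mul_le_mul_of_nonneg_right _ h4.le
              apply mul_le_mul_of_nonneg_left e3 (by positivity)
          _ = _ := by ring
      calc K * H * δ ≤ K * H * (8 / c₁ * H ^ (-(w + 2))) :=
            mul_le_mul_of_nonneg_left hδle (by positivity)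
        _ ≤ c₁ / 2 * p := h2
        _ ≤ D := hDp)
    (by
      rw [hδ]
      have : 4 * e / D * D / 2 = 2 * e := by field_simp; ring
      rw [this]; linarith)
  have hαA : α ∈ A ξ n w := by
    refine ⟨g, hg, hgd.trans hkn, hgα, hα0, ?_⟩
    refine hα.trans (hδle.trans ?_)
    have hg1 : 1 ≤ (ht g : ℝ) := ht_pos_real hg.ne_zero
    have h2 : (K * H) ^ (-w - 1) ≤ (ht g : ℝ) ^ (-w - 1) :=
      Real.rpow_le_rpow_of_nonpos (by linarith) hgh (by linarith)
    refine le_trans ?_ h2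
    have hKpos : 0 < K := by linarith
    rw [Real.mul_rpow hKpos.le hH0.le]
    have h3 : H ^ (-w - 1) = H * H ^ (-(w + 2)) := by
      have : H * H ^ (-(w + 2)) = H ^ (1 + -(w + 2)) := by
        rw [Real.rpow_add hH0, Real.rpow_one]
      rw [this]; congr 1; ring
    have h4 : K ^ (-w - 1) * K ^ (w + 1) = 1 := by
      rw [← Real.rpow_add hKpos]
      have : -w - 1 + (w + 1) = 0 := by ring
      rw [this, Real.rpow_zero]
    rw [h3]
    have hKw : 0 < K ^ (-w - 1) := Real.rpow_pos_of_pos hKpos _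
    calc 8 / c₁ * H ^ (-(w + 2)) = K ^ (-w - 1) * (8 / c₁ * K ^ (w + 1)) * H ^ (-(w + 2)) := by
          calc 8 / c₁ * H ^ (-(w + 2)) = 8 / c₁ * 1 * H ^ (-(w + 2)) := by ring
            _ = 8 / c₁ * (K ^ (-w - 1) * K ^ (w + 1)) * H ^ (-(w + 2)) := by rw [h4]
            _ = _ := by ring
      _ ≤ K ^ (-w - 1) * H * H ^ (-(w + 2)) := by
          apply mul_le_mul_of_nonneg_right _ hq0.le
          apply mul_le_mul_of_nonneg_left e4 hKw.le
      _ = _ := by ring
  have := hηA α hαA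
  linarith

theorem lower_general (ξ : ℝ) (hξ : Transcendental ℤ ξ) (n k : ℕ) (hkn : k ≤ n) (hk : 1 ≤ k)
    (w : ℝ) (hw : 2 * (k : ℝ) ≤ w) (hfin : ¬ (A ξ n w).Infinite) :
    ∃ c : ℝ, 0 < c ∧ ∀ P : ℤ[X], P ≠ 0 → P.natDegree ≤ k →
      c * (ht P : ℝ) ^ (-(w + 2 * k + 1)) ≤ |aeval ξ P| := by
  obtain ⟨c, hc, hc1, hcb⟩ := lower_irred ξ hξ n k hkn hk w hw hfin
  have hk0 : (1 : ℝ) ≤ k := by exact_mod_cast hk
  set w₁ : ℝ := w + 2 * k + 1 with hw₁
  have hw₁0 : 0 < w₁ := by rw [hw₁]; linarith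
  set c₂ : ℝ := c * ((2 : ℝ) ^ k) ^ (-w₁) with hc₂
  have h2k : (1 : ℝ) ≤ (2 : ℝ) ^ k := one_le_pow₀ (by norm_num)
  have h2kp : ((2 : ℝ) ^ k) ^ (-w₁) ≤ 1 := Real.rpow_le_one_of_one_le_of_nonpos h2k (by linarith)
  have h2kp0 : 0 < ((2 : ℝ) ^ k) ^ (-w₁) := Real.rpow_pos_of_pos (by positivity) _
  have hc₂0 : 0 < c₂ := by positivity
  have hc₂1 : c₂ ≤ 1 := by
    rw [hc₂]
    calc c * ((2 : ℝ) ^ k) ^ (-w₁) ≤ 1 * 1 := mul_le_mul hc1 h2kp h2kp0.le zero_le_one
      _ = 1 := mul_one _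
  have claim : ∀ P : ℤ[X], P ≠ 0 → P.natDegree ≤ k →
      c₂ ^ P.natDegree * (mm P) ^ (-w₁) ≤ |aeval ξ P| := by
    intro P
    induction P using WfDvdMonoid.induction_on_irreducible with
    | zero => intro h; exact absurd rfl h
    | unit u hu =>
      intro hu0 _
      have hd := natDegree_eq_zero_of_isUnit hu
      have h1 : (1 : ℝ) ≤ |aeval ξ u| := one_le_abs_of_const u hu0 hd ξ
      rw [hd, pow_zero, one_mul]
      exact (Real.rpow_le_one_of_one_le_of_nonpos (one_le_mm hu0) (by linarith)).trans h1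
    | mul a i ha hi ih =>
      intro _ hd
      have hi0 : i ≠ 0 := hi.ne_zero
      rw [natDegree_mul hi0 ha] at hd
      have h1 := ih ha (by omega)
      have hmi : 1 ≤ mm i := one_le_mm hi0
      have hma : 1 ≤ mm a := one_le_mm ha
      have h2 : c₂ ^ i.natDegree * (mm i) ^ (-w₁) ≤ |aeval ξ i| := by
        by_cases hdi : i.natDegree = 0
        · have h5 : (1 : ℝ) ≤ |aeval ξ i| := one_le_abs_of_const i hi0 hdi ξ
          rw [hdi, pow_zero, one_mul]
          exact (Real.rpow_le_one_of_one_le_of_nonpos hmi (by linarith)).trans h5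
        · have h3 := hcb i hi (by omega)
          have h4 : c₂ ^ i.natDegree ≤ c₂ := pow_le_of_le_one hc₂0.le hc₂1 hdi
          have hi1 : (1 : ℝ) ≤ ht i := ht_pos_real hi0
          have h5 : ((2 : ℝ) ^ k * mm i) ^ (-w₁) ≤ (ht i : ℝ) ^ (-w₁) :=
            Real.rpow_le_rpow_of_nonpos (by linarith) (ht_le_mm i k (by omega)) (by linarith)
          rw [Real.mul_rpow (by positivity) (by linarith)] at h5
          have hmip : 0 ≤ (mm i) ^ (-w₁) := Real.rpow_nonneg (by linarith) _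
          calc c₂ ^ i.natDegree * (mm i) ^ (-w₁) ≤ c₂ * (mm i) ^ (-w₁) :=
                mul_le_mul_of_nonneg_right h4 hmip
            _ = c * (((2 : ℝ) ^ k) ^ (-w₁) * (mm i) ^ (-w₁)) := by rw [hc₂]; ring
            _ ≤ c * (ht i : ℝ) ^ (-w₁) := mul_le_mul_of_nonneg_left h5 hc.le
            _ ≤ _ := h3
      rw [natDegree_mul hi0 ha, mm_mul, map_mul, abs_mul, Real.mul_rpow (by linarith) (by linarith),
        pow_add]
      calc c₂ ^ i.natDegree * c₂ ^ a.natDegree * ((mm i) ^ (-w₁) * (mm a) ^ (-w₁))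
          = (c₂ ^ i.natDegree * (mm i) ^ (-w₁)) * (c₂ ^ a.natDegree * (mm a) ^ (-w₁)) := by ring
        _ ≤ |aeval ξ i| * |aeval ξ a| := by
            apply mul_le_mul h2 h1 _ (abs_nonneg _)
            have : 0 ≤ (mm a) ^ (-w₁) := Real.rpow_nonneg (by linarith) _
            positivity
  refine ⟨c₂ ^ k * ((k : ℝ) + 1) ^ (-w₁), by positivity, ?_⟩
  intro P hP hd
  have h1 := claim P hP hd
  have hP1 : (1 : ℝ) ≤ ht P := ht_pos_real hP
  have hm1 : 1 ≤ mm P := one_le_mm hP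
  have h2 : (((k : ℝ) + 1) * ht P) ^ (-w₁) ≤ (mm P) ^ (-w₁) :=
    Real.rpow_le_rpow_of_nonpos (by linarith) (mm_le_ht P k hd) (by linarith)
  rw [Real.mul_rpow (by positivity) (by positivity)] at h2
  have h3 : c₂ ^ k ≤ c₂ ^ P.natDegree := pow_le_pow_of_le_one hc₂0.le hc₂1 hd
  calc c₂ ^ k * ((k : ℝ) + 1) ^ (-w₁) * (ht P : ℝ) ^ (-w₁)
      = c₂ ^ k * (((k : ℝ) + 1) ^ (-w₁) * (ht P : ℝ) ^ (-w₁)) := by ring
    _ ≤ c₂ ^ P.natDegree * (mm P) ^ (-w₁) := by
        apply mul_le_mul h3 h2 (by positivity) (by positivity)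
    _ ≤ _ := h1

end Pool.Agent.H81S
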