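import Pool.Agent.H81S.Growth

set_option autoImplicit false

namespace Pool.Agent.H81S

open Polynomial

theorem exists_primitive (g : ℚ[X]) (hg : g ≠ 0) :
    ∃ g₀ : ℤ[X], g₀.IsPrimitive ∧ g₀.natDegree = g.natDegree ∧
      ∃ a : ℚ, a ≠ 0 ∧ g = C a * g₀.map (Int.castRingHom ℚ) := by
  obtain ⟨b, hb, hG⟩ := IsLocalization.integerNormalization_spec (nonZeroDivisors ℤ) g
  set G₁ := IsLocalization.integerNormalization (nonZeroDivisors ℤ) g with hG₁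
  have hb0 : b ≠ 0 := nonZeroDivisors.ne_zero hb
  have hbQ : (b : ℚ) ≠ 0 := by exact_mod_cast hb0
  have hmap : G₁.map (Int.castRingHom ℚ) = C (b : ℚ) * g := by
    have : (algebraMap ℤ ℚ) = Int.castRingHom ℚ := rfl
    rw [← this, hG]
    rw [← smul_eq_C_mul]
    ext i
    simp
  have hG0 : G₁ ≠ 0 := by
    intro h
    rw [h, Polynomial.map_zero] at hmap
    exact mul_ne_zero (C_ne_zero.2 hbQ) hg hmap.symm
  have hc0 : G₁.content ≠ 0 := by
    intro h; exact hG0 (content_eq_zero_iff.1 h)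
  have hcQ : (G₁.content : ℚ) ≠ 0 := by exact_mod_cast hc0
  have hdec := G₁.eq_C_content_mul_primPart
  have hdec2 := congrArg (fun q : ℤ[X] => q.map (Int.castRingHom ℚ)) hdec
  simp only [Polynomial.map_mul, Polynomial.map_C] at hdec2
  refine ⟨G₁.primPart, G₁.isPrimitive_primPart, ?_, (G₁.content : ℚ) / b, div_ne_zero hcQ hbQ, ?_⟩
  · rw [natDegree_primPart]
    have h1 : (G₁.map (Int.castRingHom ℚ)).natDegree = G₁.natDegree :=
      natDegree_map_eq_of_injective (RingHom.injective_int _) _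
    rw [← h1, hmap, natDegree_C_mul hbQ]
  · have h1 : C (b : ℚ) * g = C (G₁.content : ℚ) * G₁.primPart.map (Int.castRingHom ℚ) := by
      rw [← hmap, hdec2]; rfl
    apply mul_left_cancel₀ (C_ne_zero.2 hbQ)
    rw [h1, ← mul_assoc, ← C_mul]
    congr 2
    field_simp

theorem exists_max_degree (p : ℤ[X] → Prop) (m : ℕ) (hne : ∃ D, p D)
    (hb : ∀ D, p D → D.natDegree ≤ m) :
    ∃ D, p D ∧ ∀ D', p D' → D'.natDegree ≤ D.natDegree := by
  have hbdd : BddAbove {d | ∃ D, p D ∧ D.natDegree = d} := by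
    refine ⟨m, ?_⟩
    rintro d ⟨D, hD, rfl⟩
    exact hb D hD
  have hmem := Nat.sSup_mem (s := {d | ∃ D, p D ∧ D.natDegree = d})
    (by obtain ⟨D, hD⟩ := hne; exact ⟨_, D, hD, rfl⟩) hbdd
  obtain ⟨D, hD, hDd⟩ := hmem
  refine ⟨D, hD, ?_⟩
  intro D' hD'
  rw [hDd]
  exact le_csSup hbdd ⟨D', hD', rfl⟩

theorem spanQ_mul (D : ℤ[X]) (S : Set ℤ[X]) (hS : ∀ P ∈ S, D ∣ P) :
    spanQ S = (spanQ {Q | D * Q ∈ S}).map (mulBy (D.map (Int.castRingHom ℚ))) := by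
  unfold spanQ
  rw [Submodule.map_span]
  congr 1
  ext p
  constructor
  · rintro ⟨P, hP, rfl⟩
    obtain ⟨Q, rfl⟩ := hS P hP
    refine ⟨Q.map (Int.castRingHom ℚ), ⟨Q, hP, rfl⟩, ?_⟩
    simp
  · rintro ⟨_, ⟨Q, hQ, rfl⟩, rfl⟩
    refine ⟨D * Q, hQ, ?_⟩
    simp

theorem spanQ_mono {S T : Set ℤ[X]} (h : S ⊆ T) : spanQ S ≤ spanQ T :=
  Submodule.span_mono (Set.image_mono h)

theorem iter_spanQ_le (T : Set ℤ[X]) (j : ℕ) :
    iter (spanQ T) j ≤ spanQ {R | ∃ i ≤ j, ∃ Q ∈ T, R = X ^ i * Q} := by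
  induction j with
  | zero =>
    apply spanQ_mono
    intro Q hQ
    exact ⟨0, le_rfl, Q, hQ, by simp⟩
  | succ j ih =>
    apply sup_le
    · refine ih.trans (spanQ_mono ?_)
      rintro R ⟨i, hi, Q, hQ, rfl⟩
      exact ⟨i, by omega, Q, hQ, rfl⟩
    · refine (Submodule.map_mono ih).trans ?_
      unfold spanQ
      rw [Submodule.map_span, Submodule.span_le]
      rintro _ ⟨_, ⟨R, ⟨i, hi, Q, hQ, rfl⟩, rfl⟩, rfl⟩
      apply Submodule.subset_span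
      refine ⟨X ^ (i + 1) * Q, ⟨i + 1, by omega, Q, hQ, rfl⟩, ?_⟩
      simp only [mulBy_apply, Polynomial.map_mul, Polynomial.map_pow, Polynomial.map_X]
      ring

/-- nonzero polynomials from a bounded set have values bounded away from zero -/
theorem exists_lower (ξ : ℝ) (hξ : Transcendental ℤ ξ) (n : ℕ) (B : ℝ) :
    ∃ η : ℝ, 0 < η ∧ η ≤ 1 ∧ ∀ P : ℤ[X], P ≠ 0 → P.natDegree ≤ n → (ht P : ℝ) ≤ B →
      η ≤ |aeval ξ P| := by
  have hfin : {P : ℤ[X] | (P.natDegree ≤ n ∧ (ht P : ℝ) ≤ B) ∧ P ≠ 0}.Finite :=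
    (finite_ht n B).subset (fun P hP => hP.1)
  have hpos : ∀ P : ℤ[X], P ≠ 0 → 0 < |aeval ξ P| := by
    intro P hP
    rw [abs_pos]
    intro h
    exact hξ ⟨P, hP, h⟩
  by_cases hne : {P : ℤ[X] | (P.natDegree ≤ n ∧ (ht P : ℝ) ≤ B) ∧ P ≠ 0}.Nonempty
  · obtain ⟨P₀, hP₀, hmin⟩ := Set.exists_min_image _ (fun P : ℤ[X] => |aeval ξ P|) hfin hne
    refine ⟨min 1 |aeval ξ P₀|, lt_min one_pos (hpos P₀ hP₀.2), min_le_left _ _, ?_⟩
    intro P hP h1 h2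
    exact (min_le_right _ _).trans (hmin P ⟨⟨h1, h2⟩, hP⟩)
  · refine ⟨1, one_pos, le_rfl, ?_⟩
    intro P hP h1 h2
    exact absurd ⟨P, ⟨h1, h2⟩, hP⟩ hne

theorem ht_X_pow_mul (i : ℕ) (Q : ℤ[X]) : ht (X ^ i * Q) = ht Q := by
  apply le_antisymm
  · rw [ht_le_iff]
    intro j
    rw [coeff_X_pow_mul']
    split_ifs
    · exact coeff_le_ht Q _
    · simp
  · rw [ht_le_iff]
    intro j
    have h := coeff_le_ht (X ^ i * Q) (j + i)
    rwa [coeff_X_pow_mul] at h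

theorem main_lemma (ξ : ℝ) (hξ : Transcendental ℤ ξ) (m k : ℕ) (hk : k ≤ m) (w₁ w' : ℝ)
    (h0 : 0 ≤ w₁) (hww : w₁ < w')
    (ha : ∃ X₀ : ℝ, ∀ B ≥ X₀, ∃ j ≤ m + k, (X ^ j : ℚ[X]) ∉ spanQ (G ξ (m + k) B w₁))
    (hb : ∃ c : ℝ, 0 < c ∧ ∀ P : ℤ[X], P ≠ 0 → P.natDegree ≤ k →
      c * (ht P : ℝ) ^ (-w₁) ≤ |aeval ξ P|) :
    ∃ X₁ : ℝ, ∀ B ≥ X₁, Module.finrank ℚ (spanQ (G ξ m B w')) + k ≤ m := by
  obtain ⟨X₀, hX₀⟩ := ha
  obtain ⟨c, hc, hcb⟩ := hb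
  obtain ⟨η, hη, -, hηb⟩ := exists_lower ξ hξ m X₀
  set C₀ : ℝ := 4 ^ m * (m + 1) with hC₀
  have hC₀1 : 1 ≤ C₀ := by
    have h1 : (1 : ℝ) ≤ 4 ^ m := one_le_pow₀ (by norm_num)
    have h2 : (1 : ℝ) ≤ m + 1 := by linarith [Nat.cast_nonneg (α := ℝ) m]
    nlinarith
  set K : ℝ := (1 + |ξ|) ^ (m + k) with hK
  have hK1 : 1 ≤ K := one_le_pow₀ (by linarith [abs_nonneg ξ])
  have ev1 : ∀ᶠ B : ℝ in Filter.atTop, K * C₀ ^ w₁ / c ≤ B ^ (w' - w₁) :=
    (tendsto_rpow_atTop (show 0 < w' - w₁ by linarith)).eventually_ge_atTop _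
  have ev2 : ∀ᶠ B : ℝ in Filter.atTop, C₀ ^ w₁ / c / η < B ^ (w' - w₁) :=
    (tendsto_rpow_atTop (show 0 < w' - w₁ by linarith)).eventually_gt_atTop _
  obtain ⟨X₁, hX₁⟩ := Filter.eventually_atTop.1
    (ev1.and (ev2.and (Filter.eventually_ge_atTop (1 : ℝ))))
  refine ⟨X₁, ?_⟩
  intro B hB
  obtain ⟨hB1, hB2, hB3⟩ := hX₁ B hB
  have hB0 : 0 < B := by linarith
  set S := G ξ m B w' with hS
  by_cases hne : ∃ P ∈ S, P ≠ 0
  swap
  · push Not at hne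
    have : spanQ S = ⊥ := by
      unfold spanQ
      rw [Submodule.span_eq_bot]
      rintro _ ⟨P, hP, rfl⟩
      simp [hne P hP]
    rw [this, finrank_bot]
    omega
  obtain ⟨P₀, hP₀, hP₀0⟩ := hne
  obtain ⟨D, hD, hDmax⟩ := exists_max_degree (fun D => ∀ P ∈ S, D ∣ P) m ⟨1, fun P _ => one_dvd P⟩
    (fun D hD => (natDegree_le_of_dvd (hD P₀ hP₀) hP₀0).trans hP₀.1)
  have hD0 : D ≠ 0 := by
    rintro rfl
    exact hP₀0 (zero_dvd_iff.1 (hD P₀ hP₀))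
  have hDQ0 : D.map (Int.castRingHom ℚ) ≠ 0 := by
    rwa [Ne, Polynomial.map_eq_zero_iff (RingHom.injective_int _)]
  set T : Set ℤ[X] := {Q | D * Q ∈ S} with hT
  have hTS : Module.finrank ℚ (spanQ S) = Module.finrank ℚ (spanQ T) := by
    rw [spanQ_mul D S hD, finrank_map_mulBy hDQ0]
  rw [hTS]
  have hTdeg : ∀ Q ∈ T, Q ≠ 0 → D.natDegree + Q.natDegree ≤ m := by
    intro Q hQ hQ0
    have h1 : (D * Q).natDegree ≤ m := hQ.1
    rwa [natDegree_mul hD0 hQ0] at h1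
  have hDm : D.natDegree ≤ m := (natDegree_le_of_dvd (hD P₀ hP₀) hP₀0).trans hP₀.1
  by_cases hd : k + 1 ≤ D.natDegree
  · have h1 := finrank_spanQ_le T (m - D.natDegree) (by
      intro Q hQ
      by_cases hQ0 : Q = 0
      · simp [hQ0]
      · have := hTdeg Q hQ hQ0
        omega)
    omega
  push Not at hd
  have hdk : D.natDegree ≤ k := by omega
  obtain ⟨Q₀, rfl⟩ := hD P₀ hP₀
  obtain ⟨Q₁, ⟨hQ₁, hQ₁0⟩, hQ₁max⟩ := exists_max_degree (fun Q => Q ∈ T ∧ Q ≠ 0) m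
    ⟨Q₀, hP₀, right_ne_zero_of_mul hP₀0⟩ (fun Q hQ => by
      have := hTdeg Q hQ.1 hQ.2
      omega)
  set M := Q₁.natDegree with hM
  have hMm : M ≤ m := by have := hTdeg Q₁ hQ₁ hQ₁0; omega
  have hTM : ∀ Q ∈ T, Q.natDegree ≤ M := by
    intro Q hQ
    by_cases hQ0 : Q = 0
    · simp [hQ0]
    · exact hQ₁max Q ⟨hQ, hQ0⟩
  -- lower bound for |D(ξ)|
  have hDlow := hcb D hD0 hdk
  have hDht : (1 : ℝ) ≤ ht D := ht_pos_real hD0
  set b : ℝ := (ht D : ℝ) with hb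
  have hb0 : 0 < b := by linarith
  have hbpow : 0 < b ^ w₁ := Real.rpow_pos_of_pos hb0 _
  -- bound for the cofactors
  have hQval : ∀ Q ∈ T, |aeval ξ Q| ≤ B ^ (-w') * (b ^ w₁ / c) := by
    intro Q hQ
    have h1 : |aeval ξ (D * Q)| ≤ B ^ (-w') := hQ.2.2
    rw [map_mul, abs_mul] at h1
    have h2 : c * b ^ (-w₁) * |aeval ξ Q| ≤ B ^ (-w') :=
      (mul_le_mul_of_nonneg_right hDlow (abs_nonneg _)).trans h1
    rw [Real.rpow_neg hb0.le] at h2
    calc |aeval ξ Q| = (c * (b ^ w₁)⁻¹ * |aeval ξ Q|) * (b ^ w₁ / c) := by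
          field_simp
      _ ≤ B ^ (-w') * (b ^ w₁ / c) := mul_le_mul_of_nonneg_right h2 (by positivity)
  set B' : ℝ := C₀ * B / b with hB'
  have hQht : ∀ Q ∈ T, (ht Q : ℝ) ≤ B' := by
    intro Q hQ
    rw [hB', le_div_iff₀ hb0]
    by_cases hQ0 : Q = 0
    · rw [hQ0]; simp; positivity
    have h1 := gelfond D Q m hDm ((hTM Q hQ).trans hMm) hQ.1
    have h2 : (ht (D * Q) : ℝ) ≤ B := hQ.2.1
    calc (ht Q : ℝ) * b = ht D * ht Q := by rw [hb]; ring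
      _ ≤ C₀ * ht (D * Q) := h1
      _ ≤ C₀ * B := mul_le_mul_of_nonneg_left h2 (by linarith)
  have hB'1 : 1 ≤ B' := (ht_pos_real hQ₁0).trans (hQht Q₁ hQ₁)
  have hbC : b ≤ C₀ * B := by
    rw [hB', le_div_iff₀ hb0] at hB'1
    linarith
  have hsplit : B ^ (-w') = B ^ (-w₁) * (B ^ (w' - w₁))⁻¹ := by
    rw [← Real.rpow_neg hB0.le, ← Real.rpow_add hB0]; congr 1; ring
  have hBw : 0 < B ^ (w' - w₁) := Real.rpow_pos_of_pos hB0 _
  have hBw1 : 0 < B ^ (-w₁) := Real.rpow_pos_of_pos hB0 _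
  -- `B'` is large
  have hB'X : X₀ ≤ B' := by
    by_contra hlt
    push Not at hlt
    have h1 := hηb Q₁ hQ₁0 hMm ((hQht Q₁ hQ₁).trans hlt.le)
    have h2 := hQval Q₁ hQ₁
    have h3 : b ^ w₁ ≤ C₀ ^ w₁ * B ^ w₁ := by
      rw [← Real.mul_rpow (by linarith) hB0.le]
      exact Real.rpow_le_rpow hb0.le hbC h0
    have h4 : B ^ (-w') * (b ^ w₁ / c) ≤ C₀ ^ w₁ / c * (B ^ (w' - w₁))⁻¹ := by
      calc B ^ (-w') * (b ^ w₁ / c) ≤ B ^ (-w') * (C₀ ^ w₁ * B ^ w₁ / c) := by gcongr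
        _ = (B ^ (-w₁) * B ^ w₁) * (C₀ ^ w₁ / c * (B ^ (w' - w₁))⁻¹) := by rw [hsplit]; ring
        _ = C₀ ^ w₁ / c * (B ^ (w' - w₁))⁻¹ := by
            rw [← Real.rpow_add hB0, neg_add_cancel, Real.rpow_zero, one_mul]
    have h5 : C₀ ^ w₁ / c * (B ^ (w' - w₁))⁻¹ < η := by
      rw [← div_eq_mul_inv, div_lt_iff₀ hBw]
      rw [div_lt_iff₀ hη] at hB2
      linarith
    linarith
  obtain ⟨j, hj, hjn⟩ := hX₀ B' hB'X
  -- all shifts are good
  have hsub : {R : ℤ[X] | ∃ i ≤ m + k - M, ∃ Q ∈ T, R = X ^ i * Q} ⊆ G ξ (m + k) B' w₁ := by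
    rintro R ⟨i, hi, Q, hQ, rfl⟩
    refine ⟨?_, ?_, ?_⟩
    · refine natDegree_mul_le.trans ?_
      rw [natDegree_X_pow]
      have := hTM Q hQ
      omega
    · rw [ht_X_pow_mul]; exact hQht Q hQ
    · rw [map_mul, map_pow, aeval_X, abs_mul, abs_pow]
      have h1 : |ξ| ^ i ≤ K := by
        rw [hK]
        calc |ξ| ^ i ≤ (1 + |ξ|) ^ i := by
              apply pow_le_pow_left₀ (abs_nonneg _); linarith [abs_nonneg ξ]
          _ ≤ (1 + |ξ|) ^ (m + k) := by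
              apply pow_le_pow_right₀
              · linarith [abs_nonneg ξ]
              · omega
      have h2 := hQval Q hQ
      have h3 : B' ^ (-w₁) = (C₀ ^ w₁)⁻¹ * B ^ (-w₁) * b ^ w₁ := by
        rw [hB', Real.div_rpow (by positivity) hb0.le, Real.mul_rpow (by linarith) hB0.le,
          Real.rpow_neg (by linarith : 0 ≤ C₀), Real.rpow_neg hb0.le]
        field_simp
      rw [h3]
      have hC₀w : 0 < C₀ ^ w₁ := Real.rpow_pos_of_pos (by linarith) _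
      calc |ξ| ^ i * |aeval ξ Q| ≤ K * (B ^ (-w') * (b ^ w₁ / c)) :=
            mul_le_mul h1 h2 (abs_nonneg _) (by linarith)
        _ = (C₀ ^ w₁)⁻¹ * B ^ (-w₁) * b ^ w₁ * ((K * C₀ ^ w₁ / c) * (B ^ (w' - w₁))⁻¹) := by
            rw [hsplit]; field_simp
        _ ≤ (C₀ ^ w₁)⁻¹ * B ^ (-w₁) * b ^ w₁ * 1 := by
            apply mul_le_mul_of_nonneg_left _ (by positivity)
            rw [← div_eq_mul_inv, div_le_one hBw]
            exact hB1
        _ = _ := mul_one _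
  have hle : iter (spanQ T) (m + k - M) ≤ spanQ (G ξ (m + k) B' w₁) :=
    (iter_spanQ_le T _).trans (spanQ_mono hsub)
  have hWdeg : spanQ T ≤ degreeLT ℚ (M + 1) := spanQ_le_degreeLT T M hTM
  have hile := iter_le (spanQ T) M hWdeg (m + k - M)
  have hMk : M + (m + k - M) + 1 = m + k + 1 := by omega
  rw [hMk] at hile
  have hlt : iter (spanQ T) (m + k - M) < degreeLT ℚ (m + k + 1) := by
    apply lt_of_le_of_ne hile
    intro h
    apply hjn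
    apply hle
    rw [h, mem_degreeLT_iff, natDegree_X_pow]
    exact hj
  have hfinlt := Submodule.finrank_lt_finrank_of_lt hlt
  rw [finrank_degreeLT] at hfinlt
  have hgrow := growth (spanQ T) M hWdeg
    ⟨Q₁.map (Int.castRingHom ℚ), Submodule.subset_span ⟨Q₁, hQ₁, rfl⟩, by
      rwa [Ne, Polynomial.map_eq_zero_iff (RingHom.injective_int _)], by
      rw [natDegree_map_eq_of_injective (RingHom.injective_int _)]⟩
    (by
      intro g hg
      have hg0 : g ≠ 0 := by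
        rintro rfl
        have h1 := hg _ (Submodule.subset_span ⟨Q₁, hQ₁, rfl⟩)
        rw [zero_dvd_iff] at h1
        exact hQ₁0 ((Polynomial.map_eq_zero_iff (RingHom.injective_int (Int.castRingHom ℚ))).1 h1)
      by_contra hunit
      have hgd : 1 ≤ g.natDegree := by
        by_contra h
        have h1 : g.natDegree = 0 := by omega
        apply hunit
        rw [eq_C_of_natDegree_eq_zero h1]
        rw [isUnit_C]
        apply IsUnit.mk0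
        intro h2
        rw [eq_C_of_natDegree_eq_zero h1, h2] at hg0
        simp at hg0
      obtain ⟨g₀, hg₀p, hg₀d, a, ha0, hga⟩ := exists_primitive g hg0
      have hall : ∀ P ∈ S, D * g₀ ∣ P := by
        intro P hP
        obtain ⟨Q, rfl⟩ := hD P hP
        apply mul_dvd_mul_left
        rw [IsPrimitive.Int.dvd_iff_map_cast_dvd_map_cast g₀ Q hg₀p]
        have h1 := hg _ (Submodule.subset_span ⟨Q, hP, rfl⟩)
        rw [hga] at h1
        exact (dvd_mul_left _ _).trans h1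
      have h2 := hDmax (D * g₀) hall
      rw [natDegree_mul hD0 hg₀p.ne_zero, hg₀d] at h2
      omega) (m + k - M)
  rw [hMk] at hgrow
  omega

end Pool.Agent.H81S
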