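import Pool.Agent.H81S.Basic

set_option autoImplicit false

namespace Pool.Agent.H81S

open Polynomial

theorem newton_pos (g : ℝ[X]) (ξ e D M δ : ℝ) (hδ : 0 < δ) (hδ1 : δ ≤ 1)
    (he : |g.eval ξ| ≤ e) (hg' : D ≤ g.derivative.eval ξ)
    (hM : ∀ x, |x - ξ| ≤ 1 → |g.derivative.derivative.eval x| ≤ M)
    (h1 : M * δ ≤ D / 2) (h2 : e < δ * D / 2) : ∃ α, |ξ - α| ≤ δ ∧ g.eval α = 0 := by
  have hM0 : 0 ≤ M := (abs_nonneg _).trans (hM ξ (by simp))
  have hd : ∀ x ∈ Set.Icc (ξ - δ) (ξ + δ), D / 2 ≤ g.derivative.eval x := by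
    intro x hx
    have hx' : |x - ξ| ≤ δ := abs_le.2 ⟨by linarith [hx.1], by linarith [hx.2]⟩
    have h := Convex.norm_image_sub_le_of_norm_deriv_le (f := fun x => g.derivative.eval x)
      (s := Set.Icc (ξ - δ) (ξ + δ)) (C := M)
      (fun y _ => g.derivative.differentiable.differentiableAt)
      (fun y hy => by
        rw [Polynomial.deriv, Real.norm_eq_abs]
        apply hM
        have : |y - ξ| ≤ δ := abs_le.2 ⟨by linarith [hy.1], by linarith [hy.2]⟩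
        linarith)
      (convex_Icc _ _) (x := ξ) (y := x) ⟨by linarith, by linarith⟩ hx
    rw [Real.norm_eq_abs, Real.norm_eq_abs] at h
    have h3 : M * |x - ξ| ≤ M * δ := mul_le_mul_of_nonneg_left hx' hM0
    have h4 := (abs_le.1 (h.trans h3)).1
    linarith
  have hmono : ∀ x ∈ Set.Icc (ξ - δ) (ξ + δ), ∀ y ∈ Set.Icc (ξ - δ) (ξ + δ), x ≤ y →
      D / 2 * (y - x) ≤ g.eval y - g.eval x := by
    apply Convex.mul_sub_le_image_sub_of_le_deriv (convex_Icc _ _)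
      g.continuous.continuousOn g.differentiable.differentiableOn
    intro x hx
    rw [Polynomial.deriv]
    exact hd x (interior_subset hx)
  have hξ : ξ ∈ Set.Icc (ξ - δ) (ξ + δ) := ⟨by linarith, by linarith⟩
  have hl : ξ - δ ∈ Set.Icc (ξ - δ) (ξ + δ) := ⟨by linarith, by linarith⟩
  have hr : ξ + δ ∈ Set.Icc (ξ - δ) (ξ + δ) := ⟨by linarith, by linarith⟩
  have h3 := hmono _ hl _ hξ (by linarith)
  have h4 := hmono _ hξ _ hr (by linarith)
  have he' := abs_le.1 he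
  have h5 : g.eval (ξ - δ) ≤ 0 := by nlinarith
  have h6 : 0 ≤ g.eval (ξ + δ) := by nlinarith
  have hivt := intermediate_value_Icc (show ξ - δ ≤ ξ + δ by linarith)
    (f := fun x => g.eval x) g.continuous.continuousOn
  obtain ⟨α, hα, hα0⟩ := hivt ⟨h5, h6⟩
  refine ⟨α, ?_, hα0⟩
  rw [abs_le]
  constructor <;> linarith [hα.1, hα.2]

theorem newton (g : ℝ[X]) (ξ e D M δ : ℝ) (hδ : 0 < δ) (hδ1 : δ ≤ 1)
    (he : |g.eval ξ| ≤ e) (hg' : D ≤ |g.derivative.eval ξ|)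
    (hM : ∀ x, |x - ξ| ≤ 1 → |g.derivative.derivative.eval x| ≤ M)
    (h1 : M * δ ≤ D / 2) (h2 : e < δ * D / 2) : ∃ α, |ξ - α| ≤ δ ∧ g.eval α = 0 := by
  rcases abs_cases (g.derivative.eval ξ) with ⟨h, _⟩ | ⟨h, _⟩
  · rw [h] at hg'
    exact newton_pos g ξ e D M δ hδ hδ1 he hg' hM h1 h2
  · rw [h] at hg'
    obtain ⟨α, hα, hα0⟩ := newton_pos (-g) ξ e D M δ hδ hδ1 (by simpa using he)
      (by simpa using hg') (by
        intro x hx
        simpa using hM x hx) h1 h2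
    exact ⟨α, hα, by simpa using hα0⟩

/-- Approximations to `ξ` by real algebraic numbers of degree at most `n`. -/
def A (ξ : ℝ) (n : ℕ) (w : ℝ) : Set ℝ :=
  {α : ℝ | ∃ P : ℤ[X], Irreducible P ∧ P.natDegree ≤ n ∧ aeval α P = 0 ∧
    0 < |ξ - α| ∧ |ξ - α| ≤ (ht P : ℝ) ^ (-w - 1)}

/-- From an integer polynomial with tiny value and large derivative to an algebraic number. -/
theorem approx_of_poly (ξ : ℝ) (hξ : Transcendental ℤ ξ) (n : ℕ) :
    ∃ K : ℝ, 1 ≤ K ∧ ∀ (Q : ℤ[X]) (H D e δ : ℝ), Q ≠ 0 → Q.natDegree ≤ n → (ht Q : ℝ) ≤ H →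
      |aeval ξ Q| ≤ e → D ≤ |aeval ξ (derivative Q)| → 0 < δ → δ ≤ 1 →
      K * H * δ ≤ D → e < δ * D / 2 →
      ∃ (α : ℝ) (f : ℤ[X]), Irreducible f ∧ f.natDegree ≤ n ∧ aeval α f = 0 ∧
        0 < |ξ - α| ∧ |ξ - α| ≤ δ ∧ (ht f : ℝ) ≤ K * H := by
  set L : ℝ := (n + 1) * (2 + |ξ|) ^ n with hL
  have hL1 : 1 ≤ L := by
    have h1 : (1 : ℝ) ≤ (2 + |ξ|) ^ n := one_le_pow₀ (by linarith [abs_nonneg ξ])
    have h2 : (1 : ℝ) ≤ n + 1 := by linarith [Nat.cast_nonneg (α := ℝ) n]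
    nlinarith
  set K : ℝ := 2 * (n * (n * L)) + (4 ^ n * (n + 1)) with hK
  have hK4 : (1 : ℝ) ≤ 4 ^ n * (n + 1) := by
    have h1 : (1 : ℝ) ≤ 4 ^ n := one_le_pow₀ (by norm_num)
    have h2 : (1 : ℝ) ≤ n + 1 := by linarith [Nat.cast_nonneg (α := ℝ) n]
    nlinarith
  have hnn : (0 : ℝ) ≤ n * (n * L) := by positivity
  refine ⟨K, by linarith, ?_⟩
  intro Q H D e δ hQ hn hH he hD hδ hδ1 hKH heδ
  set g : ℝ[X] := Q.map (Int.castRingHom ℝ) with hg
  have hH0 : 0 ≤ H := (Nat.cast_nonneg _).trans hH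
  have hgc : ∀ i, |g.coeff i| ≤ H := by
    intro i
    rw [hg, coeff_map]
    exact (abs_coeff_le Q i).trans hH
  have hgd : g.natDegree ≤ n := natDegree_map_le.trans hn
  have hg1c := coeff_derivative_bound g n hgd H hgc
  have hg1d := natDegree_derivative_le' g n hgd
  have hg2c := coeff_derivative_bound g.derivative n hg1d _ hg1c
  have hg2d := natDegree_derivative_le' g.derivative n hg1d
  have hM : ∀ x, |x - ξ| ≤ 1 → |g.derivative.derivative.eval x| ≤ n * (n * L) * H := by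
    intro x hx
    refine (eval_bound _ n hg2d _ hg2c x).trans ?_
    have hx2 : |x| ≤ 1 + |ξ| := by
      have := abs_sub_abs_le_abs_sub x ξ
      linarith
    have h3 : (1 + |x|) ^ n ≤ (2 + |ξ|) ^ n :=
      pow_le_pow_left₀ (by positivity) (by linarith) n
    calc (n : ℝ) * (n * H) * ((n + 1) * (1 + |x|) ^ n)
        ≤ (n : ℝ) * (n * H) * ((n + 1) * (2 + |ξ|) ^ n) := by
          apply mul_le_mul_of_nonneg_left _ (by positivity)
          apply mul_le_mul_of_nonneg_left h3 (by positivity)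
      _ = n * (n * L) * H := by rw [hL]; ring
  have h0 : g.eval ξ = aeval ξ Q := (aeval_eq_eval_map Q ξ).symm
  have h0' : g.derivative.eval ξ = aeval ξ (derivative Q) := by
    rw [aeval_eq_eval_map, hg, derivative_map]
  obtain ⟨α, hα, hα0⟩ := newton g ξ e D (n * (n * L) * H) δ hδ hδ1 (by rw [h0]; exact he)
    (by rw [h0']; exact hD) hM (by
      have h5 : 0 ≤ 4 ^ n * ((n : ℝ) + 1) * H * δ := by positivity
      have h6 : K * H * δ = 2 * (n * (n * L) * H * δ) + 4 ^ n * (n + 1) * H * δ := by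
        rw [hK]; ring
      linarith) heδ
  have hα1 : aeval α Q = 0 := by rw [aeval_eq_eval_map]; exact hα0
  obtain ⟨f, hf, hfQ, hfα⟩ := exists_irreducible_factor Q hQ α hα1
  refine ⟨α, f, hf, (natDegree_le_of_dvd hfQ hQ).trans hn, hfα, ?_, hα, ?_⟩
  · rw [abs_pos, sub_ne_zero]
    rintro rfl
    exact hξ ⟨Q, hQ, hα1⟩
  · calc (ht f : ℝ) ≤ (4 ^ n * (n + 1)) * ht Q := ht_factor_le f Q n hQ hn hfQ
      _ ≤ (4 ^ n * (n + 1)) * H := by apply mul_le_mul_of_nonneg_left hH; positivity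
      _ ≤ K * H := by
          apply mul_le_mul_of_nonneg_right _ hH0
          linarith

/-- If approximations of quality `w` exist arbitrarily close to `ξ`, there are infinitely many. -/
theorem infinite_of_close (ξ : ℝ) (n : ℕ) (w : ℝ)
    (h : ∀ η : ℝ, 0 < η → ∃ α ∈ A ξ n w, |ξ - α| < η) : (A ξ n w).Infinite := by
  intro hfin
  have : ∃ η : ℝ, 0 < η ∧ ∀ α ∈ A ξ n w, η ≤ |ξ - α| := by
    by_cases hne : (A ξ n w).Nonempty
    · obtain ⟨α₀, hα₀, hmin⟩ := Set.exists_min_image (A ξ n w) (fun α => |ξ - α|) hfin hne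
      obtain ⟨P, hP⟩ := hα₀
      exact ⟨|ξ - α₀|, hP.2.2.2.1, hmin⟩
    · rw [Set.not_nonempty_iff_eq_empty] at hne
      exact ⟨1, one_pos, by simp [hne]⟩
  obtain ⟨η, hη, hA⟩ := this
  obtain ⟨α, hα, hlt⟩ := h η hη
  exact absurd (hA α hα) (not_le.2 hlt)

end Pool.Agent.H81S
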